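import Mathlib

/-!
# Levels of a regular partition

Parts in a triangle of the reduced graph, and the parts reachable from them in a bounded number of
steps; almost all the edges lie between parts of one level, or in a triangle-free remainder.
-/

namespace Run7.h576

open Finset

variable {α : Type*}

theorem mantel (S : Finset α) (R : α → α → Prop) [DecidableRel R]
    (hsymm : ∀ a b, R a b → R b a)
    (htri : ∀ a ∈ S, ∀ b ∈ S, ∀ c ∈ S, R a b → R a c → R b c → False) :
    2 * (#{p ∈ S ×ˢ S | R p.1 p.2} : ℝ) ≤ (#S : ℝ) ^ 2 := by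
  classical
  set E := {p ∈ S ×ˢ S | R p.1 p.2} with hE
  set deg : α → ℝ := fun a => (#{b ∈ S | R a b} : ℝ) with hdeg
  have h1 : (#E : ℝ) = ∑ a ∈ S, deg a := by
    rw [hE, Finset.card_filter, Finset.sum_product]
    push_cast
    apply Finset.sum_congr rfl
    intro a _
    show _ = (#{b ∈ S | R a b} : ℝ)
    rw [Finset.card_filter]
    push_cast
    rfl
  have h2 : ∑ p ∈ E, deg p.1 = ∑ a ∈ S, deg a ^ 2 := by
    rw [hE, Finset.sum_filter, Finset.sum_product]
    apply Finset.sum_congr rfl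
    intro a _
    rw [← Finset.sum_filter]
    simp only [Finset.sum_const, nsmul_eq_mul, sq]
    rfl
  have h3 : ∑ p ∈ E, deg p.2 = ∑ a ∈ S, deg a ^ 2 := by
    rw [hE, Finset.sum_filter, Finset.sum_product_right]
    apply Finset.sum_congr rfl
    intro b _
    rw [← Finset.sum_filter]
    simp only [Finset.sum_const, nsmul_eq_mul, sq]
    have : {x ∈ S | R x b} = {x ∈ S | R b x} := by
      ext x
      simp only [Finset.mem_filter]
      constructor
      · rintro ⟨h, h'⟩; exact ⟨h, hsymm _ _ h'⟩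
      · rintro ⟨h, h'⟩; exact ⟨h, hsymm _ _ h'⟩
    rw [this]
  have h4 : ∑ p ∈ E, (deg p.1 + deg p.2) ≤ (#E : ℝ) * #S := by
    rw [← nsmul_eq_mul, ← Finset.sum_const]
    apply Finset.sum_le_sum
    rintro ⟨a, b⟩ hab
    rw [hE, Finset.mem_filter, Finset.mem_product] at hab
    have hdisj : Disjoint {x ∈ S | R a x} {x ∈ S | R b x} := by
      rw [Finset.disjoint_left]
      intro x hx1 hx2
      exact htri a hab.1.1 b hab.1.2 x (Finset.mem_filter.1 hx1).1 hab.2
        (Finset.mem_filter.1 hx1).2 (Finset.mem_filter.1 hx2).2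
    have : #{x ∈ S | R a x} + #{x ∈ S | R b x} ≤ #S := by
      rw [← Finset.card_union_of_disjoint hdisj]
      apply Finset.card_le_card
      exact Finset.union_subset (Finset.filter_subset _ _) (Finset.filter_subset _ _)
    simp only [hdeg]
    exact_mod_cast this
  rw [Finset.sum_add_distrib, h2, h3] at h4
  have h5 : (∑ a ∈ S, deg a) ^ 2 ≤ #S * ∑ a ∈ S, deg a ^ 2 := sq_sum_le_card_mul_sum_sq
  rw [← h1] at h5
  rcases Nat.eq_zero_or_pos (#E) with h0 | h0
  · rw [h0]; simp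
  · have h6 : (0 : ℝ) < #E := by exact_mod_cast h0
    have h7 : (2 * (#E : ℝ)) * #E ≤ (#S : ℝ) ^ 2 * #E := by nlinarith [Nat.cast_nonneg (α := ℝ) (#S)]
    exact le_of_mul_le_mul_right h7 h6

section

variable [Fintype α] [DecidableEq α] (G : SimpleGraph α) [DecidableRel G.Adj] (ε d₀ : ℝ)
  (P : Finpartition (univ : Finset α))

/-- Reduced adjacency of parts. -/
def Red (s t : Finset α) : Prop := s ≠ t ∧ G.IsUniform ε s t ∧ d₀ ≤ (G.edgeDensity s t : ℝ)

variable {G ε d₀} in
theorem Red.symm {s t : Finset α} (h : Red G ε d₀ s t) : Red G ε d₀ t s :=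
  ⟨h.1.symm, h.2.1.symm, by rw [G.edgeDensity_comm]; exact h.2.2⟩

noncomputable instance instDecidableRed (s t : Finset α) : Decidable (Red G ε d₀ s t) :=
  Classical.propDecidable _

/-- The levels. -/
noncomputable def lev : ℕ → Finset (Finset α)
  | 0 => {s ∈ P.parts | ∃ t ∈ P.parts, ∃ u ∈ P.parts,
      Red G ε d₀ s t ∧ Red G ε d₀ s u ∧ Red G ε d₀ t u}
  | k + 1 => {s ∈ P.parts | s ∈ lev k ∨ ∃ t ∈ lev k, Red G ε d₀ s t}

theorem lev_subset (k : ℕ) : lev G ε d₀ P k ⊆ P.parts := by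
  intro s hs
  cases k with
  | zero => rw [lev, Finset.mem_filter] at hs; exact hs.1
  | succ k => rw [lev, Finset.mem_filter] at hs; exact hs.1

theorem lev_succ (k : ℕ) : lev G ε d₀ P k ⊆ lev G ε d₀ P (k + 1) := by
  intro s hs
  rw [lev, Finset.mem_filter]
  exact ⟨lev_subset G ε d₀ P k hs, Or.inl hs⟩

theorem lev_zero_subset (k : ℕ) : lev G ε d₀ P 0 ⊆ lev G ε d₀ P k := by
  induction k with
  | zero => exact subset_rfl
  | succ k ih => exact ih.trans (lev_succ G ε d₀ P k)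

theorem sum_lev (K : ℕ) :
    ∑ k ∈ range K, #(lev G ε d₀ P (k + 1) \ lev G ε d₀ P k) ≤ #(lev G ε d₀ P K) := by
  induction K with
  | zero => simp
  | succ K ih =>
    rw [Finset.sum_range_succ]
    have h1 : #(lev G ε d₀ P (K + 1) \ lev G ε d₀ P K) = #(lev G ε d₀ P (K + 1)) -
        #(lev G ε d₀ P K) := Finset.card_sdiff_of_subset (lev_succ G ε d₀ P K)
    have h2 := Finset.card_le_card (lev_succ G ε d₀ P K)
    omega

theorem exists_level (K : ℕ) (hK : 0 < K) :
    ∃ k < K, K * #(lev G ε d₀ P (k + 1) \ lev G ε d₀ P k) ≤ #P.parts := by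
  by_contra hcon
  push Not at hcon
  have h1 : ∑ k ∈ range K, (#P.parts + 1) ≤
      ∑ k ∈ range K, K * #(lev G ε d₀ P (k + 1) \ lev G ε d₀ P k) := by
    apply Finset.sum_le_sum
    intro k hk
    exact hcon k (Finset.mem_range.1 hk)
  rw [← Finset.mul_sum, Finset.sum_const, Finset.card_range, smul_eq_mul] at h1
  have h2 := le_of_mul_le_mul_left h1 hK
  have h3 := sum_lev G ε d₀ P K
  have h4 := Finset.card_le_card (lev_subset G ε d₀ P K)
  omega

/-- Vertices in parts of level `k`. -/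
noncomputable def VR (k : ℕ) : Finset α := {a | P.part a ∈ lev G ε d₀ P k}

theorem part_mem' (a : α) : P.part a ∈ P.parts := P.part_mem.2 (Finset.mem_univ a)

theorem mem_part' (a : α) : a ∈ P.part a := P.mem_part_self.2 (Finset.mem_univ a)

variable {P} in
theorem part_le (hP : P.IsEquipartition) [Nonempty α] {U : Finset α} (hU : U ∈ P.parts) :
    (#U : ℝ) * #P.parts ≤ 2 * Fintype.card α := by
  have h1 := hP.card_part_le_average_add_one hU
  have h2 : #P.parts ≤ Fintype.card α := by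
    have := P.card_parts_le_card
    rwa [Finset.card_univ] at this
  rw [Finset.card_univ] at h1
  have h3 : #U * #P.parts ≤ (Fintype.card α / #P.parts + 1) * #P.parts :=
    Nat.mul_le_mul_right _ h1
  have h4 : Fintype.card α / #P.parts * #P.parts ≤ Fintype.card α := Nat.div_mul_le_self _ _
  have h5 : #U * #P.parts ≤ 2 * Fintype.card α := by
    rw [add_mul, one_mul] at h3
    omega
  exact_mod_cast h5

variable {P} in
theorem part_ge (hP : P.IsEquipartition) [Nonempty α] {U : Finset α} (hU : U ∈ P.parts) :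
    (Fintype.card α : ℝ) ≤ 2 * #U * #P.parts := by
  have h1 := hP.average_le_card_part hU
  have h2 : #P.parts ≤ Fintype.card α := by
    have := P.card_parts_le_card
    rwa [Finset.card_univ] at this
  have h0 : 0 < #P.parts := Finset.card_pos.2 ⟨U, hU⟩
  rw [Finset.card_univ] at h1
  have h3 := Nat.div_add_mod (Fintype.card α) (#P.parts)
  have h4 := Nat.mod_lt (Fintype.card α) h0
  have h6 : 1 ≤ Fintype.card α / #P.parts := (Nat.one_le_div_iff h0).2 h2
  have h5 : Fintype.card α ≤ 2 * #U * #P.parts := by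
    have : #P.parts * (Fintype.card α / #P.parts) ≤ #P.parts * #U := Nat.mul_le_mul_left _ h1
    have h7 : #P.parts * 1 ≤ #P.parts * (Fintype.card α / #P.parts) := Nat.mul_le_mul_left _ h6
    nlinarith
  exact_mod_cast h5

variable {ε d₀} in
/-- Almost all the adjacent pairs lie inside a level, or in a triangle-free graph outside. -/
theorem graph_level [Nonempty α] (hP : P.IsEquipartition) (hε : 0 < ε) (hεd : ε ≤ d₀)
    (hunif : P.IsUniform G ε) (hl : 4 / d₀ ≤ #P.parts) (K : ℕ) (hK : 1 / d₀ ≤ K) :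
    ∃ k < K, ∃ VN : Finset α, Disjoint (VR G ε d₀ P k) VN ∧
      (#{p : α × α | G.Adj p.1 p.2 ∧ ¬ (p.1 ∈ VR G ε d₀ P k ∧ p.2 ∈ VR G ε d₀ P k)} : ℝ) ≤
        (#VN : ℝ) ^ 2 / 2 + 13 * d₀ * (Fintype.card α : ℝ) ^ 2 := by
  classical
  have hd₀ : 0 < d₀ := lt_of_lt_of_le hε hεd
  have hK0 : (0 : ℝ) < K := lt_of_lt_of_le (by positivity) hK
  obtain ⟨k, hk, hk2⟩ := exists_level G ε d₀ P K (by exact_mod_cast hK0)
  have hparts : (0 : ℝ) < #P.parts := lt_of_lt_of_le (by positivity) hl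
  set m : ℝ := (Fintype.card α : ℝ) with hm
  have hm0 : 0 < m := by rw [hm]; exact_mod_cast Fintype.card_pos
  set VN : Finset α := {a | P.part a ∉ lev G ε d₀ P (k + 1)} with hVN
  set VM : Finset α := {a | P.part a ∈ lev G ε d₀ P (k + 1) \ lev G ε d₀ P k} with hVM
  set T : Finset (α × α) := {p ∈ VN ×ˢ VN | G.Adj p.1 p.2 ∧ Red G ε d₀ (P.part p.1) (P.part p.2)}
    with hT
  refine ⟨k, hk, VN, ?_, ?_⟩
  · rw [Finset.disjoint_left]
    intro a ha hb
    rw [VR, Finset.mem_filter] at ha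
    rw [hVN, Finset.mem_filter] at hb
    exact hb.2 (lev_succ G ε d₀ P k ha.2)
  have hVMcard : (#VM : ℝ) ≤ 2 * d₀ * m := by
    have h1 : VM ⊆ (lev G ε d₀ P (k + 1) \ lev G ε d₀ P k).biUnion id := by
      intro a ha
      rw [hVM, Finset.mem_filter] at ha
      rw [Finset.mem_biUnion]
      exact ⟨P.part a, ha.2, mem_part' P a⟩
    have h2 : (#VM : ℝ) ≤ ∑ U ∈ lev G ε d₀ P (k + 1) \ lev G ε d₀ P k, (#U : ℝ) := by
      have := (Finset.card_le_card h1).trans Finset.card_biUnion_le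
      exact_mod_cast this
    have h3 : ∑ U ∈ lev G ε d₀ P (k + 1) \ lev G ε d₀ P k, (#U : ℝ) ≤
        ∑ U ∈ lev G ε d₀ P (k + 1) \ lev G ε d₀ P k, 2 * m / #P.parts := by
      apply Finset.sum_le_sum
      intro U hU
      rw [le_div_iff₀ hparts]
      exact part_le hP (lev_subset G ε d₀ P _ (Finset.mem_sdiff.1 hU).1)
    rw [Finset.sum_const, nsmul_eq_mul] at h3
    have h4 : (K : ℝ) * #(lev G ε d₀ P (k + 1) \ lev G ε d₀ P k) ≤ #P.parts := by
      exact_mod_cast hk2
    have h5 : (#(lev G ε d₀ P (k + 1) \ lev G ε d₀ P k) : ℝ) * (2 * m / #P.parts) ≤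
        2 * m / K := by
      rw [mul_div_assoc', div_le_div_iff₀ hparts hK0]
      nlinarith
    have h6 : 2 * m / K ≤ 2 * d₀ * m := by
      rw [div_le_iff₀ hK0]
      rw [div_le_iff₀ hd₀] at hK
      nlinarith
    linarith
  have hTcard : 2 * (#T : ℝ) ≤ (#VN : ℝ) ^ 2 := by
    apply mantel VN (fun a b => G.Adj a b ∧ Red G ε d₀ (P.part a) (P.part b))
    · rintro a b ⟨h1, h2⟩
      exact ⟨h1.symm, h2.symm⟩
    · rintro a ha b _ c _ ⟨_, h1⟩ ⟨_, h2⟩ ⟨_, h3⟩
      rw [hVN, Finset.mem_filter] at ha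
      apply ha.2
      apply lev_zero_subset G ε d₀ P (k + 1)
      rw [lev, Finset.mem_filter]
      exact ⟨part_mem' P a, P.part b, part_mem' P b, P.part c, part_mem' P c, h1, h2, h3⟩
  have hsub : ({p : α × α | G.Adj p.1 p.2 ∧
      ¬ (p.1 ∈ VR G ε d₀ P k ∧ p.2 ∈ VR G ε d₀ P k)} : Finset (α × α)) ⊆
      ((P.nonUniforms G ε).biUnion fun p ↦ p.1 ×ˢ p.2) ∪ (P.parts.biUnion offDiag) ∪
      ((P.sparsePairs G d₀).biUnion fun p ↦ G.interedges p.1 p.2) ∪
      (VM ×ˢ (univ : Finset α)) ∪ ((univ : Finset α) ×ˢ VM) ∪ T := by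
    rintro ⟨a, b⟩ hab
    rw [Finset.mem_filter] at hab
    obtain ⟨_, hadj, hnot⟩ := hab
    simp only [Finset.mem_union]
    by_cases hVMa : a ∈ VM
    · exact Or.inl (Or.inl (Or.inr (Finset.mk_mem_product hVMa (Finset.mem_univ b))))
    by_cases hVMb : b ∈ VM
    · exact Or.inl (Or.inr (Finset.mk_mem_product (Finset.mem_univ a) hVMb))
    by_cases hpart : P.part a = P.part b
    · refine Or.inl (Or.inl (Or.inl (Or.inl (Or.inr ?_))))
      rw [Finset.mem_biUnion]
      refine ⟨P.part a, part_mem' P a, ?_⟩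
      rw [Finset.mem_offDiag]
      exact ⟨mem_part' P a, hpart ▸ mem_part' P b, hadj.ne⟩
    by_cases hu : G.IsUniform ε (P.part a) (P.part b)
    · by_cases hd : (G.edgeDensity (P.part a) (P.part b) : ℝ) < d₀
      · refine Or.inl (Or.inl (Or.inl (Or.inr ?_)))
        rw [Finset.mem_biUnion]
        refine ⟨(P.part a, P.part b), ?_, ?_⟩
        · rw [Finpartition.mk_mem_sparsePairs]
          exact ⟨part_mem' P a, part_mem' P b, hpart, hd⟩
        · rw [SimpleGraph.mk_mem_interedges_iff]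
          exact ⟨mem_part' P a, mem_part' P b, hadj⟩
      · have hred : Red G ε d₀ (P.part a) (P.part b) := ⟨hpart, hu, not_lt.1 hd⟩
        refine Or.inr ?_
        rw [hT, Finset.mem_filter, Finset.mem_product]
        have key : ∀ x y : α, x ∈ VR G ε d₀ P k → y ∉ VM → Red G ε d₀ (P.part x) (P.part y) →
            y ∈ VR G ε d₀ P k := by
          intro x y hx hy hr
          rw [VR, Finset.mem_filter] at hx ⊢
          refine ⟨Finset.mem_univ _, ?_⟩
          by_contra hcon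
          apply hy
          rw [hVM, Finset.mem_filter, Finset.mem_sdiff]
          refine ⟨Finset.mem_univ _, ?_, hcon⟩
          rw [lev, Finset.mem_filter]
          exact ⟨part_mem' P y, Or.inr ⟨P.part x, hx.2, hr.symm⟩⟩
        have ha : a ∉ VR G ε d₀ P k := fun h => hnot ⟨h, key a b h hVMb hred⟩
        have hb : b ∉ VR G ε d₀ P k := fun h => hnot ⟨key b a h hVMa hred.symm, h⟩
        have key2 : ∀ x : α, x ∉ VR G ε d₀ P k → x ∉ VM → x ∈ VN := by
          intro x hx hx2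
          rw [hVN, Finset.mem_filter]
          refine ⟨Finset.mem_univ _, fun h => ?_⟩
          apply hx2
          rw [hVM, Finset.mem_filter, Finset.mem_sdiff]
          refine ⟨Finset.mem_univ _, h, fun h' => ?_⟩
          apply hx
          rw [VR, Finset.mem_filter]
          exact ⟨Finset.mem_univ _, h'⟩
        exact ⟨⟨key2 a ha hVMa, key2 b hb hVMb⟩, hadj, hred⟩
    · refine Or.inl (Or.inl (Or.inl (Or.inl (Or.inl ?_))))
      rw [Finset.mem_biUnion]
      refine ⟨(P.part a, P.part b), ?_, ?_⟩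
      · rw [Finpartition.mk_mem_nonUniforms]
        exact ⟨part_mem' P a, part_mem' P b, hpart, hu⟩
      · exact Finset.mk_mem_product (mem_part' P a) (mem_part' P b)
  have hc := Finset.card_le_card hsub
  have hc1 : #((P.nonUniforms G ε).biUnion fun p ↦ p.1 ×ˢ p.2) ≤ 4 * ε * m ^ 2 := by
    have := (hP.sum_nonUniforms_lt Finset.univ_nonempty hε hunif).le
    rw [Finset.card_univ] at this
    exact this
  have hc2 : (#(P.parts.biUnion offDiag) : ℝ) ≤ d₀ / 2 * m ^ 2 := by
    have := hP.card_biUnion_offDiag_le hd₀ hl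
    rw [Finset.card_univ] at this
    exact this
  have hc3 : (#((P.sparsePairs G d₀).biUnion fun p ↦ G.interedges p.1 p.2) : ℝ) ≤
      4 * d₀ * m ^ 2 := by
    have := hP.card_interedges_sparsePairs_le (G := G) hd₀.le
    rw [Finset.card_univ] at this
    exact this
  have hc4 : (#(VM ×ˢ (univ : Finset α)) : ℝ) ≤ 2 * d₀ * m ^ 2 := by
    rw [Finset.card_product, Finset.card_univ]
    push_cast
    rw [← hm]
    nlinarith
  have hc5 : (#((univ : Finset α) ×ˢ VM) : ℝ) ≤ 2 * d₀ * m ^ 2 := by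
    rw [Finset.card_product, Finset.card_univ]
    push_cast
    rw [← hm]
    nlinarith
  have hunion : ∀ A B : Finset (α × α), (#(A ∪ B) : ℝ) ≤ #A + #B := by
    intro A B
    exact_mod_cast Finset.card_union_le A B
  have hfin : (#{p : α × α | G.Adj p.1 p.2 ∧
      ¬ (p.1 ∈ VR G ε d₀ P k ∧ p.2 ∈ VR G ε d₀ P k)} : ℝ) ≤ _ := Nat.cast_le.2 hc
  have e1 := hunion (((P.nonUniforms G ε).biUnion fun p ↦ p.1 ×ˢ p.2) ∪ (P.parts.biUnion offDiag) ∪
      ((P.sparsePairs G d₀).biUnion fun p ↦ G.interedges p.1 p.2) ∪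
      (VM ×ˢ (univ : Finset α)) ∪ ((univ : Finset α) ×ˢ VM)) T
  have e2 := hunion (((P.nonUniforms G ε).biUnion fun p ↦ p.1 ×ˢ p.2) ∪ (P.parts.biUnion offDiag) ∪
      ((P.sparsePairs G d₀).biUnion fun p ↦ G.interedges p.1 p.2) ∪
      (VM ×ˢ (univ : Finset α))) ((univ : Finset α) ×ˢ VM)
  have e3 := hunion (((P.nonUniforms G ε).biUnion fun p ↦ p.1 ×ˢ p.2) ∪ (P.parts.biUnion offDiag) ∪
      ((P.sparsePairs G d₀).biUnion fun p ↦ G.interedges p.1 p.2)) (VM ×ˢ (univ : Finset α))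
  have e4 := hunion (((P.nonUniforms G ε).biUnion fun p ↦ p.1 ×ˢ p.2) ∪ (P.parts.biUnion offDiag))
      ((P.sparsePairs G d₀).biUnion fun p ↦ G.interedges p.1 p.2)
  have e5 := hunion ((P.nonUniforms G ε).biUnion fun p ↦ p.1 ×ˢ p.2) (P.parts.biUnion offDiag)
  have e6 : 4 * ε * m ^ 2 ≤ 4 * d₀ * m ^ 2 := by gcongr
  have e7 : (0 : ℝ) ≤ d₀ / 2 * m ^ 2 := by positivity
  linarith

end

end Run7.h576
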