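import Mathlib

/-!
# Characters of the cube and families of sets

For a family `A` of subsets of `Fin N` only boundedly many characters are biased on `A`, if `A` is a
positive proportion of the cube.
-/

namespace Run7.h576

open Finset

variable {N : ℕ}

/-- The character `S ↦ (-1) ^ |V ∩ S|`. -/
noncomputable def chi (V S : Finset (Fin N)) : ℝ := ∏ i ∈ V, (if i ∈ S then (-1 : ℝ) else 1)

theorem chi_eq (V S : Finset (Fin N)) : chi V S = (-1) ^ #(V ∩ S) := by
  unfold chi
  rw [Finset.prod_ite, Finset.prod_const_one, mul_one, Finset.prod_const, Finset.filter_mem_eq_inter]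

theorem chi_comm (V S : Finset (Fin N)) : chi V S = chi S V := by
  rw [chi_eq, chi_eq, Finset.inter_comm]

theorem chi_mul_self (V S : Finset (Fin N)) : chi V S * chi V S = 1 := by
  rw [chi_eq, ← pow_add, ← two_mul]
  simp

theorem chi_empty (S : Finset (Fin N)) : chi ∅ S = 1 := by simp [chi]

theorem abs_chi (V S : Finset (Fin N)) : |chi V S| = 1 := by
  rw [chi_eq]; simp

/-- Flipping a point of `V` changes the sign of the character. -/
theorem chi_flip (V S : Finset (Fin N)) (x : Fin N) :
    chi V (symmDiff S {x}) = if x ∈ V then - chi V S else chi V S := by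
  unfold chi
  by_cases hx : x ∈ V
  · rw [if_pos hx, ← Finset.mul_prod_erase V _ hx, ← Finset.mul_prod_erase V _ hx]
    have h1 : ∏ i ∈ V.erase x, (if i ∈ symmDiff S {x} then (-1 : ℝ) else 1) =
        ∏ i ∈ V.erase x, (if i ∈ S then (-1 : ℝ) else 1) := by
      apply Finset.prod_congr rfl
      intro i hi
      have hne : i ≠ x := (Finset.mem_erase.1 hi).1
      have : i ∈ symmDiff S {x} ↔ i ∈ S := by
        simp [Finset.mem_symmDiff, hne]
      simp [this]
    rw [h1]
    by_cases hS : x ∈ S
    · have : x ∉ symmDiff S {x} := by simp [Finset.mem_symmDiff, hS]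
      simp [this, hS]
    · have : x ∈ symmDiff S {x} := by simp [Finset.mem_symmDiff, hS]
      simp [this, hS]
  · rw [if_neg hx]
    apply Finset.prod_congr rfl
    intro i hi
    have hne : i ≠ x := fun h => hx (h ▸ hi)
    have : i ∈ symmDiff S {x} ↔ i ∈ S := by
      simp [Finset.mem_symmDiff, hne]
    simp [this]

theorem sum_chi_mul (V W : Finset (Fin N)) :
    ∑ S : Finset (Fin N), chi V S * chi W S = if V = W then (2 : ℝ) ^ N else 0 := by
  split_ifs with h
  · subst h
    simp [chi_mul_self]
  · have : ∃ x, (x ∈ V ∧ x ∉ W) ∨ (x ∈ W ∧ x ∉ V) := by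
      by_contra hcon
      push Not at hcon
      apply h
      ext x
      have := hcon x
      tauto
    obtain ⟨x, hx⟩ := this
    have e : Function.Involutive (fun S : Finset (Fin N) => symmDiff S {x}) := by
      intro S
      simp [symmDiff_assoc]
    have h1 : ∑ S : Finset (Fin N), chi V S * chi W S =
        ∑ S : Finset (Fin N), chi V (symmDiff S {x}) * chi W (symmDiff S {x}) :=
      (Equiv.sum_comp e.toPerm (fun S => chi V S * chi W S)).symm
    have h2 : ∀ S : Finset (Fin N), chi V (symmDiff S {x}) * chi W (symmDiff S {x}) = -(chi V S * chi W S) := by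
      intro S
      rw [chi_flip, chi_flip]
      rcases hx with ⟨h3, h4⟩ | ⟨h3, h4⟩
      · rw [if_pos h3, if_neg h4]; ring
      · rw [if_neg h4, if_pos h3]; ring
    simp only [h2, Finset.sum_neg_distrib] at h1
    linarith

/-- The character sum over the family `A`. -/
noncomputable def csum (A : Finset (Finset (Fin N))) (V : Finset (Fin N)) : ℝ := ∑ S ∈ A, chi V S

theorem sum_csum_sq (A : Finset (Finset (Fin N))) :
    ∑ V : Finset (Fin N), csum A V ^ 2 = 2 ^ N * #A := by
  have h1 : ∀ V : Finset (Fin N), csum A V ^ 2 = ∑ S ∈ A, ∑ T ∈ A, chi V S * chi V T := by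
    intro V
    rw [sq, csum, Finset.sum_mul_sum]
  simp only [h1]
  rw [Finset.sum_comm]
  have h2 : ∀ S ∈ A, ∑ V : Finset (Fin N), ∑ T ∈ A, chi V S * chi V T = 2 ^ N := by
    intro S hS
    rw [Finset.sum_comm]
    have h3 : ∀ T ∈ A, ∑ V : Finset (Fin N), chi V S * chi V T = if S = T then (2 : ℝ) ^ N else 0 := by
      intro T _
      rw [← sum_chi_mul]
      apply Finset.sum_congr rfl
      intro V _
      rw [chi_comm V S, chi_comm V T]
    rw [Finset.sum_congr rfl h3]
    simp [hS]
  rw [Finset.sum_congr rfl h2]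
  simp [mul_comm]

theorem sum_powerset_chi (D S : Finset (Fin N)) :
    ∑ V ∈ D.powerset, chi V S = if Disjoint S D then (2 : ℝ) ^ #D else 0 := by
  unfold chi
  rw [← Finset.prod_one_add]
  split_ifs with h
  · have : ∀ i ∈ D, (1 : ℝ) + (if i ∈ S then (-1 : ℝ) else 1) = 2 := by
      intro i hi
      have : i ∉ S := fun hS => (Finset.disjoint_left.1 h) hS hi
      simp [this]
      norm_num
    rw [Finset.prod_congr rfl this]
    simp
  · rw [Finset.not_disjoint_iff] at h
    obtain ⟨x, hx1, hx2⟩ := h
    exact Finset.prod_eq_zero hx2 (by simp [hx1])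

theorem card_disjoint (A : Finset (Finset (Fin N))) (D : Finset (Fin N)) :
    (2 : ℝ) ^ #D * #{S ∈ A | Disjoint S D} = ∑ V ∈ D.powerset, csum A V := by
  unfold csum
  rw [Finset.sum_comm]
  simp only [sum_powerset_chi]
  rw [Finset.sum_ite, Finset.sum_const_zero, add_zero, Finset.sum_const, nsmul_eq_mul, mul_comm]

/-- Few characters are biased on a large family; the others determine the proportion of the members
disjoint from a given set. -/
theorem exists_exceptional (A : Finset (Finset (Fin N))) (hA : A.Nonempty) (η : ℝ) (hη : 0 < η) :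
    ∃ E : Finset (Finset (Fin N)), (∀ V ∈ E, V.Nonempty) ∧ (#E : ℝ) * (η ^ 2 * #A) ≤ 2 ^ N ∧
      ∀ D : Finset (Fin N), (∀ V ∈ E, ¬ V ⊆ D) →
        |(#{S ∈ A | Disjoint S D} : ℝ) / #A - (1 / 2) ^ #D| ≤ η := by
  classical
  have hA0 : (0 : ℝ) < #A := by exact_mod_cast hA.card_pos
  refine ⟨univ.filter (fun V => V.Nonempty ∧ η * #A < |csum A V|), ?_, ?_, ?_⟩
  · intro V hV
    exact (Finset.mem_filter.1 hV).2.1
  · have h1 : (#(univ.filter (fun V : Finset (Fin N) => V.Nonempty ∧ η * #A < |csum A V|)) : ℝ) *
        (η * #A) ^ 2 ≤ ∑ V : Finset (Fin N), csum A V ^ 2 := by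
      calc _ = ∑ V ∈ univ.filter (fun V : Finset (Fin N) => V.Nonempty ∧ η * #A < |csum A V|),
            (η * #A) ^ 2 := by rw [Finset.sum_const, nsmul_eq_mul]
        _ ≤ ∑ V ∈ univ.filter (fun V : Finset (Fin N) => V.Nonempty ∧ η * #A < |csum A V|),
            csum A V ^ 2 := by
            apply Finset.sum_le_sum
            intro V hV
            have := (Finset.mem_filter.1 hV).2.2
            rw [← sq_abs (csum A V)]
            gcongr
        _ ≤ _ := by
            apply Finset.sum_le_sum_of_subset_of_nonneg (Finset.filter_subset _ _)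
            intro V _ _
            positivity
    rw [sum_csum_sq] at h1
    have h2 : (#(univ.filter (fun V : Finset (Fin N) => V.Nonempty ∧ η * #A < |csum A V|)) : ℝ) *
        (η ^ 2 * #A) * #A ≤ 2 ^ N * #A := by
      calc _ = (#(univ.filter (fun V : Finset (Fin N) => V.Nonempty ∧ η * #A < |csum A V|)) : ℝ) *
        (η * #A) ^ 2 := by ring
        _ ≤ _ := h1
    exact le_of_mul_le_mul_right h2 hA0
  · intro D hD
    have h1 := card_disjoint A D
    have h2 : ∑ V ∈ D.powerset, csum A V = #A + ∑ V ∈ D.powerset.erase ∅, csum A V := by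
      rw [← Finset.add_sum_erase _ _ (Finset.empty_mem_powerset D)]
      congr 1
      unfold csum
      simp [chi_empty]
    have h3 : |∑ V ∈ D.powerset.erase ∅, csum A V| ≤ 2 ^ #D * (η * #A) := by
      calc _ ≤ ∑ V ∈ D.powerset.erase ∅, |csum A V| := Finset.abs_sum_le_sum_abs _ _
        _ ≤ ∑ V ∈ D.powerset.erase ∅, η * #A := by
            apply Finset.sum_le_sum
            intro V hV
            have hV1 : V ≠ ∅ := (Finset.mem_erase.1 hV).1
            have hV2 : V ⊆ D := Finset.mem_powerset.1 (Finset.mem_erase.1 hV).2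
            by_contra hcon
            push Not at hcon
            exact hD V (Finset.mem_filter.2 ⟨Finset.mem_univ _,
              Finset.nonempty_iff_ne_empty.2 hV1, hcon⟩) hV2
        _ = (#(D.powerset.erase ∅) : ℝ) * (η * #A) := by rw [Finset.sum_const, nsmul_eq_mul]
        _ ≤ 2 ^ #D * (η * #A) := by
            gcongr
            calc (#(D.powerset.erase ∅) : ℝ) ≤ #(D.powerset) := by
                  exact_mod_cast Finset.card_le_card (Finset.erase_subset _ _)
              _ = 2 ^ #D := by rw [Finset.card_powerset]; push_cast; rfl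
    have h4 : (0 : ℝ) < 2 ^ #D := by positivity
    have h5 : (#{S ∈ A | Disjoint S D} : ℝ) / #A - (1 / 2) ^ #D =
        (∑ V ∈ D.powerset.erase ∅, csum A V) / (2 ^ #D * #A) := by
      rw [h2] at h1
      have : (#{S ∈ A | Disjoint S D} : ℝ) = (#A + ∑ V ∈ D.powerset.erase ∅, csum A V) / 2 ^ #D := by
        field_simp
        linarith
      rw [this]
      have h6 : ((1 : ℝ) / 2) ^ #D = 1 / 2 ^ #D := by rw [div_pow, one_pow]
      rw [h6]
      field_simp
      ring
    rw [h5, abs_div, abs_of_pos (by positivity : (0 : ℝ) < 2 ^ #D * #A), div_le_iff₀ (by positivity)]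
    calc _ ≤ _ := h3
      _ = _ := by ring

end Run7.h576
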