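import Mathlib
import Pool.Agent.Run7.h576.Bessel

/-!
# The pair lemma

In a regular pair of families whose unions are distinct, the proportions of members disjoint from a
set `D` multiply to about `2 ^ (-|D|)`.
-/

namespace Run7.h576

open Finset

variable {N : ℕ} {α : Type*}

/-- Proportion of the members of the family `s` which are disjoint from `D`. -/
noncomputable def q (φ : α → Finset (Fin N)) (s : Finset α) (D : Finset (Fin N)) : ℝ :=
  (#{a ∈ s | Disjoint (φ a) D} : ℝ) / #s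

theorem q_nonneg (φ : α → Finset (Fin N)) (s : Finset α) (D : Finset (Fin N)) : 0 ≤ q φ s D := by
  unfold q; positivity

theorem q_le_one (φ : α → Finset (Fin N)) (s : Finset α) (D : Finset (Fin N)) : q φ s D ≤ 1 := by
  unfold q
  apply div_le_one_of_le₀ _ (by positivity)
  exact_mod_cast Finset.card_le_card (Finset.filter_subset _ _)

theorem card_interedges_eq (G : SimpleGraph α) [DecidableRel G.Adj] (s t : Finset α) :
    (#(G.interedges s t) : ℝ) = (G.edgeDensity s t : ℝ) * (#s * #t) := by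
  rcases s.eq_empty_or_nonempty with rfl | hs
  · simp
  rcases t.eq_empty_or_nonempty with rfl | ht
  · have : G.interedges s ∅ = ∅ := by
      ext x; simp [SimpleGraph.mem_interedges_iff]
    simp [this]
  rw [SimpleGraph.edgeDensity_def]
  have h1 : (0 : ℝ) < #s := by exact_mod_cast hs.card_pos
  have h2 : (0 : ℝ) < #t := by exact_mod_cast ht.card_pos
  push_cast
  field_simp

/-- Real arithmetic behind the pair lemma. -/
theorem pair_arith {ε θ d₀ ξ P S T a b x y r r' r'' : ℝ} (hε : 0 < ε) (hθ : 0 < θ) (hθ1 : θ ≤ 1)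
    (hd₀ : 0 < d₀) (hd1 : d₀ ≤ 1) (hξ : 0 < ξ) (hξ1 : ξ ≤ 1) (h8 : 8 * ε ≤ ξ * θ * d₀)
    (hS : 0 < S) (hT : 0 < T) (ha : θ * S ≤ a) (hb : θ * T ≤ b) (hx : 0 ≤ x) (hy : 0 ≤ y)
    (hxa : x ≤ a) (hyb : y ≤ b) (hr : d₀ ≤ r) (hr' : |r' - r| < ε) (hr1 : r'' ≤ 1) (hr0 : 0 ≤ r'')
    (hr'' : S * ε ≤ x → T * ε ≤ y → |r'' - r| < ε)
    (hP : 0 ≤ P) (hI : |r'' * (x * y) / (r' * (a * b)) - P| ≤ ξ / 2) :
    |x / a * (y / b) - P| ≤ ξ := by
  have ha0 : 0 < a := lt_of_lt_of_le (by positivity) ha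
  have hb0 : 0 < b := lt_of_lt_of_le (by positivity) hb
  have hεd : ε ≤ d₀ / 8 := by
    have : ξ * θ * d₀ ≤ 1 * 1 * d₀ := by gcongr
    linarith
  have hεd' : 8 * ε ≤ ξ * d₀ := by
    have : ξ * θ * d₀ ≤ ξ * 1 * d₀ := by gcongr
    linarith
  have hεθ : 8 * ε ≤ ξ * θ := by
    have : ξ * θ * d₀ ≤ ξ * θ * 1 := by gcongr
    linarith
  have hr'' : S * ε ≤ x → T * ε ≤ y → |r'' - r| < ε := hr''
  have hr'0 : d₀ / 2 ≤ r' := by
    have := (abs_lt.1 hr').1
    linarith
  have hr'p : 0 < r' := by linarith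
  have hu0 : 0 ≤ x / a := by positivity
  have hu1 : x / a ≤ 1 := by rw [div_le_one ha0]; exact hxa
  have hv0 : 0 ≤ y / b := by positivity
  have hv1 : y / b ≤ 1 := by rw [div_le_one hb0]; exact hyb
  have hI' : r'' * (x * y) / (r' * (a * b)) = (r'' / r') * (x / a * (y / b)) := by
    field_simp
  rw [hI'] at hI
  have hrr : r'' / r' ≤ 2 / d₀ := by
    rw [div_le_div_iff₀ hr'p hd₀]
    nlinarith
  have hrr0 : 0 ≤ r'' / r' := by positivity
  by_cases h1 : S * ε ≤ x
  · by_cases h2 : T * ε ≤ y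
    · have h3 := hr'' h1 h2
      have h4 : |r'' / r' - 1| ≤ ξ / 2 := by
        have : r'' / r' - 1 = (r'' - r') / r' := by field_simp
        rw [this, abs_div, abs_of_pos hr'p, div_le_iff₀ hr'p]
        have h5 : |r'' - r'| ≤ 2 * ε := by
          have : r'' - r' = (r'' - r) - (r' - r) := by ring
          rw [this]
          have := abs_sub (r'' - r) (r' - r)
          linarith
        nlinarith
      have h6 : |(r'' / r') * (x / a * (y / b)) - x / a * (y / b)| ≤ ξ / 2 := by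
        have : (r'' / r') * (x / a * (y / b)) - x / a * (y / b) =
          (r'' / r' - 1) * (x / a * (y / b)) := by ring
        rw [this, abs_mul, abs_of_nonneg (by positivity : 0 ≤ x / a * (y / b))]
        calc |r'' / r' - 1| * (x / a * (y / b)) ≤ (ξ / 2) * (1 * 1) := by gcongr
          _ = ξ / 2 := by ring
      have h7 : x / a * (y / b) - P = ((r'' / r') * (x / a * (y / b)) - P) -
        ((r'' / r') * (x / a * (y / b)) - x / a * (y / b)) := by ring
      rw [h7]
      have := abs_sub ((r'' / r') * (x / a * (y / b)) - P)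
        ((r'' / r') * (x / a * (y / b)) - x / a * (y / b))
      linarith
    · push Not at h2
      have h3 : y / b ≤ ε / θ := by
        rw [div_le_div_iff₀ hb0 hθ]
        nlinarith
      have h4 : x / a * (y / b) ≤ ε / θ := by
        calc x / a * (y / b) ≤ 1 * (ε / θ) := by gcongr
          _ = ε / θ := by ring
      have h5 : (r'' / r') * (x / a * (y / b)) ≤ ξ / 4 := by
        calc (r'' / r') * (x / a * (y / b)) ≤ (2 / d₀) * (ε / θ) := by gcongr
          _ = 2 * ε / (d₀ * θ) := by field_simp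
          _ ≤ ξ / 4 := by
            rw [div_le_iff₀ (by positivity)]
            nlinarith
      have h6 : ε / θ ≤ ξ / 8 := by
        rw [div_le_iff₀ hθ]; linarith
      have h7 := abs_le.1 hI
      have h8 : 0 ≤ x / a * (y / b) := by positivity
      rw [abs_le]
      constructor <;> linarith
  · push Not at h1
    have h3 : x / a ≤ ε / θ := by
      rw [div_le_div_iff₀ ha0 hθ]
      nlinarith
    have h4 : x / a * (y / b) ≤ ε / θ := by
      calc x / a * (y / b) ≤ (ε / θ) * 1 := by gcongr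
        _ = ε / θ := by ring
    have h5 : (r'' / r') * (x / a * (y / b)) ≤ ξ / 4 := by
      calc (r'' / r') * (x / a * (y / b)) ≤ (2 / d₀) * (ε / θ) := by gcongr
        _ = 2 * ε / (d₀ * θ) := by field_simp
        _ ≤ ξ / 4 := by
          rw [div_le_iff₀ (by positivity)]
          nlinarith
    have h6 : ε / θ ≤ ξ / 8 := by
      rw [div_le_iff₀ hθ]; linarith
    have h7 := abs_le.1 hI
    have h8 : 0 ≤ x / a * (y / b) := by positivity
    rw [abs_le]
    constructor <;> linarith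

/-- Unions along distinct edges are distinct. -/
def UnionInj (G : SimpleGraph α) (φ : α → Finset (Fin N)) : Prop :=
  ∀ a b c d, G.Adj a b → G.Adj c d → φ a ∪ φ b = φ c ∪ φ d → (a = c ∧ b = d) ∨ (a = d ∧ b = c)

theorem pair_lemma [DecidableEq α] (G : SimpleGraph α) [DecidableRel G.Adj]
    (φ : α → Finset (Fin N)) (hinj : UnionInj G φ) {ε θ d₀ ξ : ℝ} (hε : 0 < ε) (hθ : 0 < θ)
    (hθ1 : θ ≤ 1) (hd₀ : 0 < d₀) (hd1 : d₀ ≤ 1) (hξ : 0 < ξ) (hξ1 : ξ ≤ 1)
    (h8 : 8 * ε ≤ ξ * θ * d₀) {s t : Finset α} (hst : Disjoint s t) (hs : s.Nonempty)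
    (ht : t.Nonempty) (hunif : G.IsUniform ε s t) (hdens : d₀ ≤ (G.edgeDensity s t : ℝ))
    {s' t' : Finset α} (hss : s' ⊆ s) (htt : t' ⊆ t) (hθs : θ * #s ≤ #s') (hθt : θ * #t ≤ #t') :
    ∃ 𝓥 : Finset (Finset (Fin N)), (∀ V ∈ 𝓥, V.Nonempty) ∧
      (#𝓥 : ℝ) * (ξ ^ 2 * θ ^ 2 * d₀ * (#s * #t)) ≤ 8 * 2 ^ N ∧
      ∀ D : Finset (Fin N), (∀ V ∈ 𝓥, ¬ V ⊆ D) → |q φ s' D * q φ t' D - (1 / 2) ^ #D| ≤ ξ := by
  have hS : (0 : ℝ) < #s := by exact_mod_cast hs.card_pos
  have hT : (0 : ℝ) < #t := by exact_mod_cast ht.card_pos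
  have hS' : (0 : ℝ) < #s' := lt_of_lt_of_le (by positivity) hθs
  have hT' : (0 : ℝ) < #t' := lt_of_lt_of_le (by positivity) hθt
  have hεθ : ε ≤ θ := by
    have : ξ * θ * d₀ ≤ 1 * θ * 1 := by gcongr
    linarith
  have hεd : ε ≤ d₀ / 8 := by
    have : ξ * θ * d₀ ≤ 1 * 1 * d₀ := by gcongr
    linarith
  have hr' : |(G.edgeDensity s' t' : ℝ) - G.edgeDensity s t| < ε := by
    apply hunif hss htt
    · nlinarith
    · nlinarith
  have hr'0 : d₀ / 2 ≤ (G.edgeDensity s' t' : ℝ) := by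
    have := (abs_lt.1 hr').1
    linarith
  have hr'p : (0 : ℝ) < (G.edgeDensity s' t' : ℝ) := by linarith
  set E := G.interedges s' t' with hE
  have hEcard : (#E : ℝ) = G.edgeDensity s' t' * (#s' * #t') := card_interedges_eq G s' t'
  have hEpos : (0 : ℝ) < #E := by rw [hEcard]; exact mul_pos hr'p (mul_pos hS' hT')
  have hEne : E.Nonempty := by
    rw [← Finset.card_pos]; exact_mod_cast hEpos
  have hinjOn : Set.InjOn (fun p : α × α => φ p.1 ∪ φ p.2) E := by
    rintro ⟨a, b⟩ hab ⟨c, d⟩ hcd heq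
    rw [hE, Finset.mem_coe, SimpleGraph.mk_mem_interedges_iff] at hab hcd
    rcases hinj a b c d hab.2.2 hcd.2.2 heq with ⟨h1, h2⟩ | ⟨h1, h2⟩
    · rw [h1, h2]
    · exfalso
      exact (Finset.disjoint_left.1 hst) (hss hab.1) (h1 ▸ htt hcd.2.1)
  set A := E.image (fun p : α × α => φ p.1 ∪ φ p.2) with hA
  have hAcard : #A = #E := Finset.card_image_of_injOn hinjOn
  have hAne : A.Nonempty := hEne.image _
  obtain ⟨𝓥, hV1, hV2, hV3⟩ := exists_exceptional A hAne (ξ / 2) (by positivity)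
  refine ⟨𝓥, hV1, ?_, ?_⟩
  · have h1 : d₀ / 2 * (θ ^ 2 * (#s * #t)) ≤ (#A : ℝ) := by
      rw [hAcard, hEcard]
      calc d₀ / 2 * (θ ^ 2 * (#s * #t)) = d₀ / 2 * ((θ * #s) * (θ * #t)) := by ring
        _ ≤ _ := mul_le_mul hr'0 (mul_le_mul hθs hθt (by positivity) hS'.le) (by positivity) hr'p.le
    calc (#𝓥 : ℝ) * (ξ ^ 2 * θ ^ 2 * d₀ * (#s * #t))
        = 8 * ((#𝓥 : ℝ) * ((ξ / 2) ^ 2 * (d₀ / 2 * (θ ^ 2 * (#s * #t))))) := by ring
      _ ≤ 8 * ((#𝓥 : ℝ) * ((ξ / 2) ^ 2 * #A)) := by gcongr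
      _ ≤ 8 * 2 ^ N := by gcongr
  · intro D hD
    have h1 := hV3 D hD
    have h2 : #{S ∈ A | Disjoint S D} =
        #(G.interedges {a ∈ s' | Disjoint (φ a) D} {b ∈ t' | Disjoint (φ b) D}) := by
      rw [hA, Finset.filter_image, Finset.card_image_of_injOn]
      · congr 1
        ext ⟨a, b⟩
        rw [Finset.mem_filter, hE, SimpleGraph.mk_mem_interedges_iff,
          SimpleGraph.mk_mem_interedges_iff, Finset.mem_filter, Finset.mem_filter]
        simp only [Finset.disjoint_union_left]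
        tauto
      · exact hinjOn.mono (by exact_mod_cast Finset.filter_subset _ _)
    rw [h2, hAcard, card_interedges_eq, hEcard] at h1
    unfold q
    apply pair_arith (a := #s') (b := #t') hε hθ hθ1 hd₀ hd1 hξ hξ1 h8 hS hT hθs hθt (by positivity)
      (by positivity) (by exact_mod_cast Finset.card_le_card (Finset.filter_subset _ _))
      (by exact_mod_cast Finset.card_le_card (Finset.filter_subset _ _)) hdens hr' _ _ _
      (by positivity) h1
    · exact_mod_cast G.edgeDensity_le_one _ _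
    · exact_mod_cast G.edgeDensity_nonneg _ _
    · intro h3 h4
      exact hunif ((Finset.filter_subset _ _).trans hss) ((Finset.filter_subset _ _).trans htt) h3 h4

end Run7.h576
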