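import Mathlib
import Pool.Agent.Run7.h576.Pair
import Pool.Agent.Run7.h576.Count

/-!
# Hereditary quasirandomness of the levels
-/

namespace Run7.h576

open Finset

variable {N : ℕ} {α : Type*}

/-- The number `1 / √2`. -/
noncomputable def rt : ℝ := √(1 / 2)

theorem rt_sq : rt ^ 2 = 1 / 2 := by
  unfold rt
  rw [Real.sq_sqrt (by norm_num)]

theorem rt_pos : 0 < rt := by
  unfold rt
  exact Real.sqrt_pos.2 (by norm_num)

theorem half_le_rt : 1 / 2 ≤ rt := by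
  have := rt_sq
  have := rt_pos
  nlinarith

theorem rt_lt_one : rt < 1 := by
  have := rt_sq
  have := rt_pos
  nlinarith

theorem rt_pow_sq (n : ℕ) : (rt ^ n) * (rt ^ n) = (1 / 2) ^ n := by
  rw [← mul_pow, ← sq, rt_sq]

/-- Arithmetic behind the triangle lemma. -/
theorem tri_arith' {A B C x : ℝ} (hA : 0 ≤ A) (hB : 0 ≤ B) (hC : 0 ≤ C) (hx : 0 ≤ x)
    (hx8 : x ≤ 1 / 8) (h1 : |A * B - 1| ≤ x) (h2 : |A * C - 1| ≤ x) (h3 : |B * C - 1| ≤ x) :
    |A - 1| ≤ 4 * x := by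
  rw [abs_le] at *
  have h4 : A ^ 2 * (B * C) = (A * B) * (A * C) := by ring
  have hAB : 0 ≤ A * B := by positivity
  have hAC : 0 ≤ A * C := by positivity
  have hBC : 0 ≤ B * C := by positivity
  have h5 : (A * B) * (A * C) ≤ (1 + x) * (1 + x) := by
    apply mul_le_mul _ _ hAC (by linarith) <;> linarith [h1.2, h2.2]
  have h6 : (1 - x) * (1 - x) ≤ (A * B) * (A * C) := by
    apply mul_le_mul _ _ (by linarith) hAB <;> linarith [h1.1, h2.1]
  have h7 : A ^ 2 * (1 - x) ≤ (1 + x) * (1 + x) := by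
    have : A ^ 2 * (1 - x) ≤ A ^ 2 * (B * C) := by
      apply mul_le_mul_of_nonneg_left _ (by positivity)
      linarith [h3.1]
    linarith
  have h8 : (1 - x) * (1 - x) ≤ A ^ 2 * (1 + x) := by
    have : A ^ 2 * (B * C) ≤ A ^ 2 * (1 + x) := by
      apply mul_le_mul_of_nonneg_left _ (by positivity)
      linarith [h3.2]
    linarith
  constructor
  · by_contra hcon
    push Not at hcon
    have h9 : A < 1 - 4 * x := by linarith
    have h10 : A ^ 2 < (1 - 4 * x) ^ 2 := by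
      apply pow_lt_pow_left₀ h9 hA (by norm_num)
    have h11 : A ^ 2 * (1 + x) < (1 - 4 * x) ^ 2 * (1 + x) := by
      apply mul_lt_mul_of_pos_right h10 (by linarith)
    nlinarith [mul_nonneg hx hx, mul_nonneg (mul_nonneg hx hx) hx, mul_nonneg hx (by linarith : 0 ≤ 1 / 8 - x), mul_nonneg (mul_nonneg hx hx) (by linarith : 0 ≤ 1 / 8 - x)]
  · by_contra hcon
    push Not at hcon
    have h9 : 1 + 4 * x < A := by linarith
    have h10 : (1 + 4 * x) ^ 2 < A ^ 2 := by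
      apply pow_lt_pow_left₀ h9 (by linarith) (by norm_num)
    have h11 : (1 + 4 * x) ^ 2 * (1 - x) < A ^ 2 * (1 - x) := by
      apply mul_lt_mul_of_pos_right h10 (by linarith)
    nlinarith [mul_nonneg hx hx, mul_nonneg (mul_nonneg hx hx) hx, mul_nonneg hx (by linarith : 0 ≤ 1 / 8 - x), mul_nonneg (mul_nonneg hx hx) (by linarith : 0 ≤ 1 / 8 - x)]

theorem tri_arith {a b c β ξ : ℝ} (ha : 0 ≤ a) (hb : 0 ≤ b) (hc : 0 ≤ c) (hβ : 0 < β)
    (hξ : 0 ≤ ξ) (h8 : 8 * ξ ≤ β ^ 2) (h1 : |a * b - β * β| ≤ ξ) (h2 : |a * c - β * β| ≤ ξ)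
    (h3 : |b * c - β * β| ≤ ξ) : |a - β| ≤ 4 * ξ / β := by
  have key : ∀ u v : ℝ, |u * v - β * β| ≤ ξ → |(u / β) * (v / β) - 1| ≤ ξ / β ^ 2 := by
    intro u v h
    have : (u / β) * (v / β) - 1 = (u * v - β * β) / β ^ 2 := by field_simp
    rw [this, abs_div, abs_of_pos (by positivity : 0 < β ^ 2)]
    gcongr
  have h4 := tri_arith' (A := a / β) (B := b / β) (C := c / β) (x := ξ / β ^ 2) (by positivity)
    (by positivity) (by positivity) (by positivity)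
    (by rw [div_le_iff₀ (by positivity)]; linarith) (key _ _ h1) (key _ _ h2) (key _ _ h3)
  have h5 : a - β = β * (a / β - 1) := by field_simp
  rw [h5, abs_mul, abs_of_pos hβ]
  calc β * |a / β - 1| ≤ β * (4 * (ξ / β ^ 2)) := by gcongr
    _ = 4 * ξ / β := by field_simp

theorem step_arith {a b β ξ e : ℝ} (hβ : 0 < β) (hξ : 0 ≤ ξ) (he : e ≤ β / 2)
    (h1 : |a * b - β * β| ≤ ξ) (h2 : |b - β| ≤ e) : |a - β| ≤ 2 * ξ / β + 2 * e := by
  have hb : β / 2 ≤ b := by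
    have := (abs_le.1 h2).1
    linarith
  have h3 : b * (a - β) = (a * b - β * β) - β * (b - β) := by ring
  have h4 : b * |a - β| ≤ ξ + β * e := by
    have : b * |a - β| = |b * (a - β)| := by
      rw [abs_mul, abs_of_pos (by linarith : 0 < b)]
    rw [this, h3]
    have h5 := abs_sub (a * b - β * β) (β * (b - β))
    have h6 : |β * (b - β)| ≤ β * e := by
      rw [abs_mul, abs_of_pos hβ]
      gcongr
    linarith
  have h5 : β / 2 * |a - β| ≤ ξ + β * e := by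
    refine le_trans ?_ h4
    gcongr
  have h6 : |a - β| ≤ (ξ + β * e) / (β / 2) := by
    rw [le_div_iff₀ (by positivity)]
    linarith
  calc |a - β| ≤ (ξ + β * e) / (β / 2) := h6
    _ = 2 * ξ / β + 2 * e := by field_simp

/-- Hereditary quasirandomness: in every large subfamily the proportion of members disjoint from a
small set `D` containing none of boundedly many exceptional sets is about `2 ^ (-|D| / 2)`. -/
def HQ (φ : α → Finset (Fin N)) (d : ℕ) (L τ C : ℝ) (s : Finset α) : Prop :=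
  ∀ s' ⊆ s, L ≤ #s' → ∃ 𝓥 : Finset (Finset (Fin N)), (∀ V ∈ 𝓥, V.Nonempty) ∧
    (#𝓥 : ℝ) ≤ C ∧ ∀ D : Finset (Fin N), #D ≤ d → (∀ V ∈ 𝓥, ¬ V ⊆ D) →
      |q φ s' D - rt ^ #D| ≤ τ

theorem HQ.mono {φ : α → Finset (Fin N)} {d : ℕ} {L τ C L' τ' C' : ℝ} {s s' : Finset α}
    (h : HQ φ d L τ C s) (hL : L ≤ L') (hτ : τ ≤ τ') (hC : C ≤ C') (hs : s' ⊆ s) :
    HQ φ d L' τ' C' s' := by
  intro t ht hLt
  obtain ⟨𝓥, h1, h2, h3⟩ := h t (ht.trans hs) (hL.trans hLt)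
  exact ⟨𝓥, h1, h2.trans hC, fun D hD hV => (h3 D hD hV).trans hτ⟩

section

variable [DecidableEq α] {G : SimpleGraph α} [DecidableRel G.Adj] {φ : α → Finset (Fin N)}
  {ε θ d₀ ξ L C₀ : ℝ}

/-- The pair lemma with a bound for the number of exceptional sets. -/
theorem pair_bdd (hinj : UnionInj G φ) (hε : 0 < ε) (hθ : 0 < θ)
    (hθ1 : θ ≤ 1) (hd₀ : 0 < d₀) (hd1 : d₀ ≤ 1) (hξ : 0 < ξ) (hξ1 : ξ ≤ 1)
    (h8 : 8 * ε ≤ ξ * θ * d₀) (hL : 0 < L) (hC₀ : 0 ≤ C₀)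
    (hLC : 8 * 2 ^ N ≤ C₀ * (ξ ^ 2 * θ ^ 2 * d₀ * (L * L)))
    {s t : Finset α} (hst : Disjoint s t) (hs : L ≤ #s) (ht : L ≤ #t) (hr : Red G ε d₀ s t)
    {s' t' : Finset α} (hss : s' ⊆ s) (htt : t' ⊆ t) (hθs : θ * #s ≤ #s') (hθt : θ * #t ≤ #t') :
    ∃ 𝓥 : Finset (Finset (Fin N)), (∀ V ∈ 𝓥, V.Nonempty) ∧ (#𝓥 : ℝ) ≤ C₀ ∧
      ∀ D : Finset (Fin N), (∀ V ∈ 𝓥, ¬ V ⊆ D) → |q φ s' D * q φ t' D - rt ^ #D * rt ^ #D| ≤ ξ := by
  have hs0 : (0 : ℝ) < #s := lt_of_lt_of_le hL hs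
  have ht0 : (0 : ℝ) < #t := lt_of_lt_of_le hL ht
  have hsn : s.Nonempty := by rw [← Finset.card_pos]; exact_mod_cast hs0
  have htn : t.Nonempty := by rw [← Finset.card_pos]; exact_mod_cast ht0
  obtain ⟨𝓥, h1, h2, h3⟩ := pair_lemma G φ hinj hε hθ hθ1 hd₀ hd1 hξ hξ1 h8 hst hsn htn hr.2.1
    hr.2.2 hss htt hθs hθt
  refine ⟨𝓥, h1, ?_, ?_⟩
  · have h4 : (#𝓥 : ℝ) * (ξ ^ 2 * θ ^ 2 * d₀ * (#s * #t)) ≤
        C₀ * (ξ ^ 2 * θ ^ 2 * d₀ * (#s * #t)) := by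
      calc _ ≤ (8 : ℝ) * 2 ^ N := h2
        _ ≤ _ := hLC
        _ ≤ _ := by gcongr
    exact le_of_mul_le_mul_right h4 (by positivity)
  · intro D hD
    rw [rt_pow_sq]
    exact h3 D hD

/-- The minimal value of `2 ^ (-|D| / 2)` considered. -/
theorem rt_pow_ge (d n : ℕ) (h : n ≤ d) : (1 / 2 : ℝ) ^ d ≤ rt ^ n := by
  calc (1 / 2 : ℝ) ^ d ≤ (1 / 2) ^ n := pow_le_pow_of_le_one (by norm_num) (by norm_num) h
    _ ≤ rt ^ n := by gcongr; exact half_le_rt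

theorem HQ_triangle (hinj : UnionInj G φ) (hε : 0 < ε) (hθ : 0 < θ)
    (hθ1 : θ ≤ 1) (hd₀ : 0 < d₀) (hd1 : d₀ ≤ 1) (hξ : 0 < ξ) (hξ1 : ξ ≤ 1)
    (h8 : 8 * ε ≤ ξ * θ * d₀) (hL : 0 < L) (hC₀ : 0 ≤ C₀)
    (hLC : 8 * 2 ^ N ≤ C₀ * (ξ ^ 2 * θ ^ 2 * d₀ * (L * L))) {d : ℕ}
    (hξd : 8 * ξ ≤ ((1 / 2 : ℝ) ^ d) ^ 2)
    {s t u : Finset α} (hst : Disjoint s t) (hsu : Disjoint s u) (htu : Disjoint t u)
    (hs : L ≤ #s) (ht : L ≤ #t) (hu : L ≤ #u)
    (h1 : Red G ε d₀ s t) (h2 : Red G ε d₀ s u) (h3 : Red G ε d₀ t u) :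
    HQ φ d (θ * #s) (4 * ξ / (1 / 2 : ℝ) ^ d) (3 * C₀) s := by
  intro s' hs' hθs
  have ht1 : θ * #t ≤ #t := by
    calc θ * #t ≤ 1 * #t := by gcongr
      _ = _ := one_mul _
  have hu1 : θ * #u ≤ #u := by
    calc θ * #u ≤ 1 * #u := by gcongr
      _ = _ := one_mul _
  obtain ⟨V1, a1, b1, c1⟩ := pair_bdd hinj hε hθ hθ1 hd₀ hd1 hξ hξ1 h8 hL hC₀ hLC hst hs ht h1
    hs' subset_rfl hθs ht1
  obtain ⟨V2, a2, b2, c2⟩ := pair_bdd hinj hε hθ hθ1 hd₀ hd1 hξ hξ1 h8 hL hC₀ hLC hsu hs hu h2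
    hs' subset_rfl hθs hu1
  obtain ⟨V3, a3, b3, c3⟩ := pair_bdd hinj hε hθ hθ1 hd₀ hd1 hξ hξ1 h8 hL hC₀ hLC htu ht hu h3
    subset_rfl subset_rfl ht1 hu1
  classical
  refine ⟨V1 ∪ V2 ∪ V3, ?_, ?_, ?_⟩
  · intro V hV
    rw [Finset.mem_union, Finset.mem_union] at hV
    rcases hV with (hV | hV) | hV
    · exact a1 V hV
    · exact a2 V hV
    · exact a3 V hV
  · have e1 : (#(V1 ∪ V2 ∪ V3) : ℝ) ≤ #(V1 ∪ V2) + #V3 := by
      exact_mod_cast Finset.card_union_le _ _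
    have e2 : (#(V1 ∪ V2) : ℝ) ≤ #V1 + #V2 := by exact_mod_cast Finset.card_union_le _ _
    linarith
  · intro D hD hV
    have hβ := rt_pow_ge d (#D) hD
    have hβ0 : (0 : ℝ) < (1 / 2) ^ d := by positivity
    have f1 := c1 D (fun V h => hV V (by simp [h]))
    have f2 := c2 D (fun V h => hV V (by simp [h]))
    have f3 := c3 D (fun V h => hV V (by simp [h]))
    have := tri_arith (q_nonneg φ s' D) (q_nonneg φ t D) (q_nonneg φ u D)
      (lt_of_lt_of_le hβ0 hβ) hξ.le (hξd.trans (by gcongr)) f1 f2 f3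
    refine this.trans ?_
    gcongr

theorem HQ_step (hinj : UnionInj G φ) (hε : 0 < ε) (hθ : 0 < θ)
    (hθ1 : θ ≤ 1) (hd₀ : 0 < d₀) (hd1 : d₀ ≤ 1) (hξ : 0 < ξ) (hξ1 : ξ ≤ 1)
    (h8 : 8 * ε ≤ ξ * θ * d₀) (hL : 0 < L) (hC₀ : 0 ≤ C₀)
    (hLC : 8 * 2 ^ N ≤ C₀ * (ξ ^ 2 * θ ^ 2 * d₀ * (L * L))) {d : ℕ} {e C : ℝ}
    (he : e ≤ (1 / 2 : ℝ) ^ d / 2)
    {s t : Finset α} (hst : Disjoint s t) (hs : L ≤ #s) (ht : L ≤ #t) (h1 : Red G ε d₀ s t)
    (hHQ : HQ φ d (θ * #t) e C t) :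
    HQ φ d (θ * #s) (2 * ξ / (1 / 2 : ℝ) ^ d + 2 * e) (C + C₀) s := by
  intro s' hs' hθs
  have ht1 : θ * #t ≤ #t := by
    calc θ * #t ≤ 1 * #t := by gcongr
      _ = _ := one_mul _
  obtain ⟨V1, a1, b1, c1⟩ := pair_bdd hinj hε hθ hθ1 hd₀ hd1 hξ hξ1 h8 hL hC₀ hLC hst hs ht h1
    hs' subset_rfl hθs ht1
  obtain ⟨V2, a2, b2, c2⟩ := hHQ t subset_rfl ht1
  classical
  refine ⟨V1 ∪ V2, ?_, ?_, ?_⟩
  · intro V hV
    rw [Finset.mem_union] at hV
    rcases hV with hV | hV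
    · exact a1 V hV
    · exact a2 V hV
  · have e2 : (#(V1 ∪ V2) : ℝ) ≤ #V1 + #V2 := by exact_mod_cast Finset.card_union_le _ _
    linarith
  · intro D hD hV
    have hβ := rt_pow_ge d (#D) hD
    have hβ0 : (0 : ℝ) < (1 / 2) ^ d := by positivity
    have f1 := c1 D (fun V h => hV V (by simp [h]))
    have f2 := c2 D hD (fun V h => hV V (by simp [h]))
    have := step_arith (lt_of_lt_of_le hβ0 hβ) hξ.le (he.trans (by gcongr)) f1 f2
    refine this.trans ?_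
    gcongr

end

section

variable [Fintype α] [DecidableEq α] {G : SimpleGraph α} [DecidableRel G.Adj]
  {φ : α → Finset (Fin N)} {ε θ d₀ ξ L C₀ : ℝ} {P : Finpartition (univ : Finset α)}

theorem HQ_lev (hinj : UnionInj G φ) (hε : 0 < ε) (hθ : 0 < θ)
    (hθ1 : θ ≤ 1) (hd₀ : 0 < d₀) (hd1 : d₀ ≤ 1) (hξ : 0 < ξ) (hξ1 : ξ ≤ 1)
    (h8 : 8 * ε ≤ ξ * θ * d₀) (hL : 0 < L) (hC₀ : 0 ≤ C₀)
    (hLC : 8 * 2 ^ N ≤ C₀ * (ξ ^ 2 * θ ^ 2 * d₀ * (L * L))) {d K : ℕ}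
    (hξd : (4 : ℝ) ^ (K + 1) * ξ ≤ ((1 / 2 : ℝ) ^ d) ^ 2 / 2)
    (hparts : ∀ s ∈ P.parts, L ≤ #s) (k : ℕ) (hk : k ≤ K) :
    ∀ s ∈ lev G ε d₀ P k,
      HQ φ d (θ * #s) ((4 : ℝ) ^ (k + 1) * ξ / (1 / 2 : ℝ) ^ d) ((3 + k) * C₀) s := by
  have hβ0 : (0 : ℝ) < (1 / 2) ^ d := by positivity
  induction k with
  | zero =>
    intro s hs
    rw [lev, Finset.mem_filter] at hs
    obtain ⟨hs0, t, ht0, u, hu0, h1, h2, h3⟩ := hs
    have hξ8 : 8 * ξ ≤ ((1 / 2 : ℝ) ^ d) ^ 2 := by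
      have : (4 : ℝ) ^ (0 + 1) ≤ 4 ^ (K + 1) := by
        apply pow_le_pow_right₀ (by norm_num)
        omega
      have h4 : (4 : ℝ) ^ (0 + 1) * ξ ≤ 4 ^ (K + 1) * ξ := by gcongr
      norm_num at h4
      linarith
    have := HQ_triangle hinj hε hθ hθ1 hd₀ hd1 hξ hξ1 h8 hL hC₀ hLC hξ8
      (P.disjoint hs0 ht0 h1.1) (P.disjoint hs0 hu0 h2.1) (P.disjoint ht0 hu0 h3.1)
      (hparts s hs0) (hparts t ht0) (hparts u hu0) h1 h2 h3
    apply this.mono le_rfl _ _ subset_rfl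
    · norm_num
    · norm_num
  | succ k ih =>
    intro s hs
    have ih' := ih (by omega)
    have hs0 := lev_subset G ε d₀ P (k + 1) hs
    rw [lev, Finset.mem_filter] at hs
    rcases hs.2 with h | ⟨t, ht, hr⟩
    · apply (ih' s h).mono le_rfl _ _ subset_rfl
      · have : (4 : ℝ) ^ (k + 1) ≤ 4 ^ (k + 1 + 1) := pow_le_pow_right₀ (by norm_num) (by omega)
        gcongr
      · have : (k : ℝ) ≤ ((k + 1 : ℕ) : ℝ) := by push_cast; linarith
        gcongr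
    · have ht0 := lev_subset G ε d₀ P k ht
      have he : (4 : ℝ) ^ (k + 1) * ξ / (1 / 2 : ℝ) ^ d ≤ (1 / 2 : ℝ) ^ d / 2 := by
        rw [div_le_iff₀ hβ0]
        have h4 : (4 : ℝ) ^ (k + 1) ≤ 4 ^ (K + 1) := pow_le_pow_right₀ (by norm_num) (by omega)
        have h5 : (4 : ℝ) ^ (k + 1) * ξ ≤ 4 ^ (K + 1) * ξ := by gcongr
        nlinarith
      have := HQ_step hinj hε hθ hθ1 hd₀ hd1 hξ hξ1 h8 hL hC₀ hLC he
        (P.disjoint hs0 ht0 hr.1) (hparts s hs0) (hparts t ht0) hr (ih' t ht)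
      apply this.mono le_rfl _ _ subset_rfl
      · have h4 : (1 : ℝ) ≤ 4 ^ (k + 1) := one_le_pow₀ (by norm_num)
        have h5 : 2 * ξ / (1 / 2 : ℝ) ^ d ≤ 2 * (4 ^ (k + 1) * ξ / (1 / 2 : ℝ) ^ d) := by
          rw [← mul_div_assoc]
          gcongr
          nlinarith
        have h6 : (4 : ℝ) ^ (k + 1 + 1) * ξ / (1 / 2 : ℝ) ^ d =
            4 * (4 ^ (k + 1) * ξ / (1 / 2 : ℝ) ^ d) := by
          rw [pow_succ (4 : ℝ) (k + 1)]; ring
        rw [h6]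
        linarith
      · push_cast
        linarith

/-- From parts to the union of the parts in a level. -/
theorem HQ_VR {d : ℕ} {k : ℕ} {τ C θ₁ : ℝ} (hθ : 0 < θ) (hθ₁ : 0 < θ₁) (hτ : 0 ≤ τ) (hC : 0 ≤ C)
    [Nonempty α]
    (h : ∀ s ∈ lev G ε d₀ P k, HQ φ d (θ * #s) τ C s) :
    HQ φ d (θ₁ * Fintype.card α) (τ + θ / θ₁) (#P.parts * C) (VR G ε d₀ P k) := by
  classical
  intro s hs hs1
  have hm : (0 : ℝ) < Fintype.card α := by exact_mod_cast Fintype.card_pos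
  have hspos : (0 : ℝ) < #s := lt_of_lt_of_le (by positivity) hs1
  set 𝓖 : Finset (Finset α) := {U ∈ lev G ε d₀ P k | θ * #U ≤ #(s ∩ U)} with h𝓖
  have hex : ∀ U ∈ 𝓖, ∃ 𝓥 : Finset (Finset (Fin N)), (∀ V ∈ 𝓥, V.Nonempty) ∧
      (#𝓥 : ℝ) ≤ C ∧ ∀ D : Finset (Fin N), #D ≤ d → (∀ V ∈ 𝓥, ¬ V ⊆ D) →
      |q φ (s ∩ U) D - rt ^ #D| ≤ τ := by
    intro U hU
    rw [h𝓖, Finset.mem_filter] at hU
    exact h U hU.1 (s ∩ U) Finset.inter_subset_right hU.2
  choose! 𝓥 h1 h2 h3 using hex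
  refine ⟨𝓖.biUnion 𝓥, ?_, ?_, ?_⟩
  · intro V hV
    rw [Finset.mem_biUnion] at hV
    obtain ⟨U, hU, hV⟩ := hV
    exact h1 U hU V hV
  · calc (#(𝓖.biUnion 𝓥) : ℝ) ≤ ∑ U ∈ 𝓖, (#(𝓥 U) : ℝ) := by
          exact_mod_cast Finset.card_biUnion_le
      _ ≤ ∑ U ∈ 𝓖, C := Finset.sum_le_sum h2
      _ = #𝓖 * C := by rw [Finset.sum_const, nsmul_eq_mul]
      _ ≤ #P.parts * C := by
          gcongr
          exact (Finset.filter_subset _ _).trans (lev_subset G ε d₀ P k)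
  · intro D hD hV
    -- decompose `s` along the parts
    have hdec : ∀ (p : α → Prop) [DecidablePred p], (#{a ∈ s | p a} : ℝ) =
        ∑ U ∈ lev G ε d₀ P k, (#{a ∈ s ∩ U | p a} : ℝ) := by
      intro p _
      have e1 : {a ∈ s | p a} = (lev G ε d₀ P k).biUnion (fun U => {a ∈ s ∩ U | p a}) := by
        ext a
        simp only [Finset.mem_filter, Finset.mem_biUnion, Finset.mem_inter]
        constructor
        · rintro ⟨ha, hp⟩
          have := hs ha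
          rw [VR, Finset.mem_filter] at this
          exact ⟨P.part a, this.2, ⟨ha, mem_part' P a⟩, hp⟩
        · rintro ⟨U, _, ⟨ha, _⟩, hp⟩
          exact ⟨ha, hp⟩
      have e2 := congrArg Finset.card e1
      rw [Finset.card_biUnion] at e2
      · exact_mod_cast e2
      · intro U hU W hW hne
        have hd : Disjoint U W :=
          P.disjoint (lev_subset G ε d₀ P k hU) (lev_subset G ε d₀ P k hW) hne
        show Disjoint {a ∈ s ∩ U | p a} {a ∈ s ∩ W | p a}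
        rw [Finset.disjoint_left]
        intro a ha hb
        rw [Finset.mem_filter, Finset.mem_inter] at ha hb
        exact (Finset.disjoint_left.1 hd) ha.1.2 hb.1.2
    have hd1 := hdec (fun a => Disjoint (φ a) D)
    have hd2 := hdec (fun _ => True)
    simp only [Finset.filter_true] at hd2
    have hsum : |(#{a ∈ s | Disjoint (φ a) D} : ℝ) - rt ^ #D * #s| ≤
        τ * #s + θ * Fintype.card α := by
      rw [hd1, hd2, Finset.mul_sum, ← Finset.sum_sub_distrib]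
      refine (Finset.abs_sum_le_sum_abs _ _).trans ?_
      have hterm : ∀ U ∈ lev G ε d₀ P k,
          |(#{a ∈ s ∩ U | Disjoint (φ a) D} : ℝ) - rt ^ #D * #(s ∩ U)| ≤
            τ * #(s ∩ U) + θ * #U := by
        intro U hU
        by_cases hg : θ * #U ≤ #(s ∩ U)
        · have hUg : U ∈ 𝓖 := by rw [h𝓖, Finset.mem_filter]; exact ⟨hU, hg⟩
          have hUne := P.nonempty_of_mem_parts (lev_subset G ε d₀ P k hU)
          have hUpos : (0 : ℝ) < #U := by exact_mod_cast hUne.card_pos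
          have hpos : (0 : ℝ) < #(s ∩ U) := lt_of_lt_of_le (by positivity) hg
          have h4 := h3 U hUg D hD (fun V hV' => hV V (Finset.mem_biUnion.2 ⟨U, hUg, hV'⟩))
          have h5 : (#{a ∈ s ∩ U | Disjoint (φ a) D} : ℝ) - rt ^ #D * #(s ∩ U) =
              (q φ (s ∩ U) D - rt ^ #D) * #(s ∩ U) := by
            unfold q
            field_simp
          rw [h5, abs_mul, abs_of_pos hpos]
          have : |q φ (s ∩ U) D - rt ^ #D| * #(s ∩ U) ≤ τ * #(s ∩ U) := by gcongr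
          have : 0 ≤ θ * #U := by positivity
          linarith
        · push Not at hg
          have h6 : (#{a ∈ s ∩ U | Disjoint (φ a) D} : ℝ) ≤ #(s ∩ U) := by
            exact_mod_cast Finset.card_le_card (Finset.filter_subset _ _)
          have h7 : (0 : ℝ) ≤ #{a ∈ s ∩ U | Disjoint (φ a) D} := by positivity
          have h8 : rt ^ #D ≤ 1 := pow_le_one₀ rt_pos.le rt_lt_one.le
          have h9 : 0 ≤ rt ^ #D := pow_nonneg rt_pos.le _
          have h10 : rt ^ #D * #(s ∩ U) ≤ #(s ∩ U) := by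
            calc rt ^ #D * #(s ∩ U) ≤ 1 * #(s ∩ U) := by gcongr
              _ = _ := one_mul _
          have h11 : 0 ≤ rt ^ #D * #(s ∩ U) := by positivity
          have h12 : 0 ≤ τ * #(s ∩ U) := by positivity
          rw [abs_le]
          constructor <;> linarith
      refine (Finset.sum_le_sum hterm).trans ?_
      rw [Finset.sum_add_distrib, ← Finset.mul_sum, ← Finset.mul_sum, Finset.mul_sum]
      have hU : ∑ U ∈ lev G ε d₀ P k, (#U : ℝ) ≤ Fintype.card α := by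
        calc ∑ U ∈ lev G ε d₀ P k, (#U : ℝ) ≤ ∑ U ∈ P.parts, (#U : ℝ) :=
              Finset.sum_le_sum_of_subset_of_nonneg (lev_subset G ε d₀ P k)
                (fun _ _ _ => by positivity)
          _ = Fintype.card α := by
              have := P.sum_card_parts
              rw [Finset.card_univ] at this
              exact_mod_cast this
      rw [← Finset.mul_sum]
      gcongr
    have h5 : q φ s D - rt ^ #D = ((#{a ∈ s | Disjoint (φ a) D} : ℝ) - rt ^ #D * #s) / #s := by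
      unfold q
      field_simp
    rw [h5, abs_div, abs_of_pos hspos, div_le_iff₀ hspos]
    refine hsum.trans ?_
    rw [add_mul]
    have : θ * Fintype.card α ≤ θ / θ₁ * #s := by
      rw [div_mul_eq_mul_div, le_div_iff₀ hθ₁]
      nlinarith
    linarith

end

end Run7.h576
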