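import Mathlib
import Pool.Agent.Run7.h576.Levels

/-!
# The core structure theorem
-/

namespace Run7.h576

open Finset

/-- The auxiliary number `√(3 - c² / 2)`. -/
noncomputable def sc (c : ℝ) : ℝ := √(3 - c ^ 2 / 2)

/-- The proportion of sets which may escape the structure theorem. -/
noncomputable def rho (c : ℝ) : ℝ := (c - sc c) ^ 2 / 9

theorem sc_sq {c : ℝ} (hc0 : 0 ≤ c) (hc2 : c < 2) : sc c ^ 2 = 3 - c ^ 2 / 2 := by
  unfold sc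
  rw [Real.sq_sqrt]
  nlinarith

theorem sc_nonneg (c : ℝ) : 0 ≤ sc c := Real.sqrt_nonneg _

theorem gap_pos {c : ℝ} (hc0 : 0 ≤ c) (hc2 : c < 2) : 0 < 2 * sc c - c := by
  have h1 := sc_sq hc0 hc2
  have h2 := sc_nonneg c
  nlinarith

theorem sc_le {c : ℝ} (hc0 : √2 ≤ c) (hc2 : c < 2) : sc c ≤ c := by
  have h0 : 0 ≤ √2 := Real.sqrt_nonneg 2
  have h1 : √2 ^ 2 = 2 := Real.sq_sqrt (by norm_num)
  have hc : 0 ≤ c := h0.trans hc0
  have h2 : 2 ≤ c ^ 2 := by nlinarith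
  have h3 := sc_sq hc hc2
  have h4 := sc_nonneg c
  nlinarith

/-- The optimisation. -/
theorem optim {c v η δ : ℝ} (hc0 : √2 ≤ c) (hc2 : c < 2) (hv : 0 ≤ v) (hvc : v ≤ c)
    (hη : 3 * η ≤ 2 * (2 * sc c - c)) (hη2 : 2 * η ≤ δ * (2 * sc c - c)) (hη0 : 0 ≤ η)
    (h : 2 - η ≤ (c - v) ^ 2 + v ^ 2 / 2) : v ^ 2 / 4 ≤ rho c + δ := by
  have hc : 0 ≤ c := (Real.sqrt_nonneg 2).trans hc0
  have hg := gap_pos hc hc2
  have h3 := sc_sq hc hc2
  have h4 := sc_nonneg c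
  have h5 := sc_le hc0 hc2
  set s := sc c with hs
  set g := 2 * s - c with hgdef
  have hδ : 0 ≤ δ := by
    by_contra hcon
    push Not at hcon
    nlinarith
  have hfac : (3 / 2) * ((v - 2 / 3 * (c - s)) * (2 / 3 * (c + s) - v)) ≤ η := by
    nlinarith
  have hrho : rho c = (c - s) ^ 2 / 9 := rfl
  rw [hrho]
  by_cases hle : v ≤ 2 / 3 * (c - s)
  · have : v ^ 2 ≤ (2 / 3 * (c - s)) ^ 2 := by gcongr
    nlinarith
  · push Not at hle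
    set y := v - 2 / 3 * (c - s) with hy
    have hy0 : 0 < y := by linarith
    have h6 : g / 3 ≤ 2 / 3 * (c + s) - v := by rw [hgdef]; linarith
    have h7 : y * g ≤ 2 * η := by
      have : y * (g / 3) ≤ y * (2 / 3 * (c + s) - v) := by gcongr
      linarith
    have h8 : y ≤ 4 / 3 := by
      by_contra hcon
      push Not at hcon
      nlinarith
    have h9 : y ≤ δ := by
      have : y * g ≤ δ * g := h7.trans hη2
      exact le_of_mul_le_mul_right this hg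
    have h10 : v = y + 2 / 3 * (c - s) := by rw [hy]; ring
    have h11 : c - s ≤ 2 := by linarith
    have h12 : v ^ 2 / 4 = (c - s) ^ 2 / 9 + y * (c - s) / 3 + y ^ 2 / 4 := by
      rw [h10]; ring
    rw [h12]
    have h13 : y * (c - s) ≤ y * 2 := by gcongr
    nlinarith

theorem core {c : ℝ} (hc0 : √2 ≤ c) (hc2 : c < 2) (d : ℕ) {θ₁ τ₁ δ : ℝ} (hθ₁ : 0 < θ₁)
    (hτ₁ : 0 < τ₁) (hδ : 0 < δ) : ∃ C : ℝ, 0 ≤ C ∧ ∃ N₀ : ℕ, ∀ N ≥ N₀,
    ∀ (α : Type) [Fintype α] [DecidableEq α] (G : SimpleGraph α) [DecidableRel G.Adj]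
      (φ : α → Finset (Fin N)), UnionInj G φ → (2 : ℝ) ^ N ≤ (Fintype.card α : ℝ) ^ 2 →
      (Fintype.card α : ℝ) ≤ c * √(2 ^ N) →
      2 * ((2 : ℝ) ^ N - Fintype.card α) ≤ #{p : α × α | G.Adj p.1 p.2} →
      ∃ R : Finset α,
        (#{p : α × α | G.Adj p.1 p.2 ∧ ¬ (p.1 ∈ R ∧ p.2 ∈ R)} : ℝ) ≤
          ((Fintype.card α : ℝ) - #R) ^ 2 / 2 + δ * 2 ^ N ∧
        (#{p : α × α | G.Adj p.1 p.2 ∧ ¬ (p.1 ∈ R ∧ p.2 ∈ R)} : ℝ) ≤ 2 * (rho c + δ) * 2 ^ N ∧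
        HQ φ d (θ₁ * Fintype.card α) τ₁ C R := by
  have hc : 0 ≤ c := (Real.sqrt_nonneg 2).trans hc0
  have hg := gap_pos hc hc2
  set g := 2 * sc c - c with hgdef
  -- parameters
  obtain ⟨η, hη0, hη1, hη2⟩ : ∃ η : ℝ, 0 < η ∧ 3 * η ≤ 2 * g ∧ 2 * η ≤ δ / 2 * g := by
    refine ⟨min (2 * g / 3) (δ / 4 * g), by positivity, ?_, ?_⟩
    · have := min_le_left (2 * g / 3) (δ / 4 * g)
      linarith
    · have := min_le_right (2 * g / 3) (δ / 4 * g)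
      linarith
  obtain ⟨d₀, hd₀, hd1, hd2, hd3⟩ : ∃ d₀ : ℝ, 0 < d₀ ∧ d₀ ≤ 1 ∧ 52 * d₀ ≤ η / 2 ∧ 52 * d₀ ≤ δ := by
    refine ⟨min 1 (min (η / 104) (δ / 52)), by positivity, min_le_left _ _, ?_, ?_⟩
    · have := (min_le_right (1 : ℝ) (min (η / 104) (δ / 52))).trans (min_le_left _ _)
      linarith
    · have := (min_le_right (1 : ℝ) (min (η / 104) (δ / 52))).trans (min_le_right _ _)
      linarith
  obtain ⟨K, hK⟩ : ∃ K : ℕ, 1 / d₀ ≤ K := exists_nat_ge _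
  obtain ⟨l, hl⟩ : ∃ l : ℕ, 4 / d₀ ≤ l := exists_nat_ge _
  obtain ⟨θ, hθ, hθ1, hθ2⟩ : ∃ θ : ℝ, 0 < θ ∧ θ ≤ 1 ∧ θ / θ₁ ≤ τ₁ / 2 := by
    refine ⟨min 1 (θ₁ * τ₁ / 2), by positivity, min_le_left _ _, ?_⟩
    rw [div_le_iff₀ hθ₁]
    have := min_le_right (1 : ℝ) (θ₁ * τ₁ / 2)
    linarith
  have hβ0 : (0 : ℝ) < (1 / 2) ^ d := by positivity
  have hβ1 : ((1 : ℝ) / 2) ^ d ≤ 1 := pow_le_one₀ (by norm_num) (by norm_num)
  have h4K : (1 : ℝ) ≤ 4 ^ (K + 1) := one_le_pow₀ (by norm_num)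
  obtain ⟨ξ, hξ, hξ1, hξ2, hξ3⟩ : ∃ ξ : ℝ, 0 < ξ ∧ ξ ≤ 1 ∧
      (4 : ℝ) ^ (K + 1) * ξ ≤ ((1 / 2 : ℝ) ^ d) ^ 2 / 2 ∧
      (4 : ℝ) ^ (K + 1) * ξ / (1 / 2 : ℝ) ^ d ≤ τ₁ / 2 := by
    refine ⟨min (((1 / 2 : ℝ) ^ d) ^ 2 / 2) (τ₁ / 2 * (1 / 2 : ℝ) ^ d) / 4 ^ (K + 1), ?_, ?_, ?_, ?_⟩
    · positivity
    · rw [div_le_one (by positivity)]
      refine (min_le_left _ _).trans ?_
      nlinarith
    · rw [mul_div_cancel₀ _ (by positivity)]
      exact min_le_left _ _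
    · rw [mul_div_cancel₀ _ (by positivity), div_le_iff₀ hβ0]
      exact min_le_right _ _
  obtain ⟨ε, hε, hεd, h8⟩ : ∃ ε : ℝ, 0 < ε ∧ ε ≤ d₀ ∧ 8 * ε ≤ ξ * θ * d₀ := by
    refine ⟨min d₀ (ξ * θ * d₀ / 8), by positivity, min_le_left _ _, ?_⟩
    have := min_le_right d₀ (ξ * θ * d₀ / 8)
    linarith
  set M := SzemerediRegularity.bound ε l with hM
  set C₀ : ℝ := 32 * (M : ℝ) ^ 2 / (ξ ^ 2 * θ ^ 2 * d₀) with hC₀
  have hC₀0 : 0 ≤ C₀ := by positivity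
  obtain ⟨N₀, hN₀⟩ : ∃ N₀ : ℕ, ((l : ℝ) + 8 / η) ^ 2 < 2 ^ N₀ :=
    pow_unbounded_of_one_lt _ (by norm_num)
  refine ⟨M * ((3 + K) * C₀), by positivity, N₀, ?_⟩
  intro N hN α _ _ G _ φ hinj hcard1 hcard2 hpairs
  set Q : ℝ := √(2 ^ N) with hQ
  have hQsq : Q ^ 2 = 2 ^ N := Real.sq_sqrt (by positivity)
  have hQpos : 0 < Q := Real.sqrt_pos.2 (by positivity)
  have hQbig : (l : ℝ) + 8 / η ≤ Q := by
    apply le_of_sq_le_sq _ hQpos.le
    rw [hQsq]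
    refine hN₀.le.trans ?_
    exact pow_le_pow_right₀ (by norm_num) hN
  set m : ℝ := (Fintype.card α : ℝ) with hm
  have hm0 : 0 ≤ m := by positivity
  have hmQ : Q ≤ m := by
    apply le_of_sq_le_sq _ hm0
    rw [hQsq]; exact hcard1
  have hmpos : 0 < m := lt_of_lt_of_le hQpos hmQ
  have hne : Nonempty α := by
    rw [← Fintype.card_pos_iff]
    rw [hm] at hmpos
    exact_mod_cast hmpos
  have hlm : l ≤ Fintype.card α := by
    have : (l : ℝ) ≤ m := by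
      have : 0 ≤ 8 / η := by positivity
      linarith
    rw [hm] at this
    exact_mod_cast this
  obtain ⟨P, hP1, hP2, hP3, hP4⟩ := szemeredi_regularity G hε hlm
  have hPl : 4 / d₀ ≤ (#P.parts : ℝ) := hl.trans (by exact_mod_cast hP2)
  obtain ⟨k, hk, VN, hdisj, hlost⟩ := graph_level G P hP1 hε hεd hP4 hPl K hK
  have hPM : (#P.parts : ℝ) ≤ M := by exact_mod_cast hP3
  have hMpos : (0 : ℝ) < M := by
    have : (0 : ℝ) < #P.parts := lt_of_lt_of_le (by positivity) hPl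
    linarith
  have hLparts : ∀ s ∈ P.parts, m / (2 * M) ≤ #s := by
    intro s hs
    rw [div_le_iff₀ (by positivity)]
    have h1 := part_ge hP1 hs
    rw [← hm] at h1
    calc m ≤ 2 * #s * #P.parts := h1
      _ ≤ 2 * #s * M := by gcongr
      _ = #s * (2 * M) := by ring
  have hLC : 8 * 2 ^ N ≤ C₀ * (ξ ^ 2 * θ ^ 2 * d₀ * (m / (2 * M) * (m / (2 * M)))) := by
    have : C₀ * (ξ ^ 2 * θ ^ 2 * d₀ * (m / (2 * M) * (m / (2 * M)))) = 8 * m ^ 2 := by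
      rw [hC₀]
      field_simp
      ring
    rw [this]
    linarith
  have hHQ := HQ_lev (P := P) hinj hε hθ hθ1 hd₀ hd1 hξ hξ1 h8 (by positivity) hC₀0 hLC hξ2
    hLparts k hk.le
  have hHQ2 := HQ_VR (θ₁ := θ₁) hθ hθ₁ (by positivity) (by positivity) hHQ
  have hlost2 : (#{p : α × α | G.Adj p.1 p.2 ∧
      ¬ (p.1 ∈ VR G ε d₀ P k ∧ p.2 ∈ VR G ε d₀ P k)} : ℝ) ≤
      (#VN : ℝ) ^ 2 / 2 + 52 * d₀ * 2 ^ N := by
    refine hlost.trans ?_
    have h1 : m ^ 2 ≤ 4 * 2 ^ N := by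
      calc m ^ 2 ≤ (c * Q) ^ 2 := by gcongr
        _ = c ^ 2 * 2 ^ N := by rw [mul_pow, hQsq]
        _ ≤ 4 * 2 ^ N := by
          gcongr
          nlinarith
    have : 13 * d₀ * m ^ 2 ≤ 13 * d₀ * (4 * 2 ^ N) := by gcongr
    linarith
  refine ⟨VR G ε d₀ P k, ?_, ?_, ?_⟩
  · refine hlost2.trans ?_
    have h1 : (#(VR G ε d₀ P k) : ℝ) + #VN ≤ m := by
      have h1 : #(VR G ε d₀ P k) + #VN ≤ Fintype.card α := by
        rw [← Finset.card_union_of_disjoint hdisj]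
        exact Finset.card_le_univ _
      rw [hm]
      exact_mod_cast h1
    have h2 : (#VN : ℝ) ^ 2 ≤ (m - #(VR G ε d₀ P k)) ^ 2 := by
      apply pow_le_pow_left₀ (Nat.cast_nonneg _)
      linarith
    have h3 : 52 * d₀ * 2 ^ N ≤ δ * 2 ^ N := by gcongr
    linarith
  · -- the numerical part
    have hsplit : (#{p : α × α | G.Adj p.1 p.2} : ℝ) ≤ (#(VR G ε d₀ P k) : ℝ) ^ 2 +
        #{p : α × α | G.Adj p.1 p.2 ∧ ¬ (p.1 ∈ VR G ε d₀ P k ∧ p.2 ∈ VR G ε d₀ P k)} := by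
      have h1 : ({p : α × α | G.Adj p.1 p.2} : Finset (α × α)) ⊆
          (VR G ε d₀ P k ×ˢ VR G ε d₀ P k) ∪
          ({p : α × α | G.Adj p.1 p.2 ∧ ¬ (p.1 ∈ VR G ε d₀ P k ∧ p.2 ∈ VR G ε d₀ P k)} :
            Finset (α × α)) := by
        intro p hp
        rw [Finset.mem_filter] at hp
        rw [Finset.mem_union, Finset.mem_product, Finset.mem_filter]
        by_cases h : p.1 ∈ VR G ε d₀ P k ∧ p.2 ∈ VR G ε d₀ P k
        · exact Or.inl h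
        · exact Or.inr ⟨Finset.mem_univ _, hp.2, h⟩
      have h2 := (Finset.card_le_card h1).trans (Finset.card_union_le _ _)
      rw [Finset.card_product, ← sq] at h2
      exact_mod_cast h2
    have hsum : (#(VR G ε d₀ P k) : ℝ) + #VN ≤ c * Q := by
      refine le_trans ?_ hcard2
      have h1 : #(VR G ε d₀ P k) + #VN ≤ Fintype.card α := by
        rw [← Finset.card_union_of_disjoint hdisj]
        exact Finset.card_le_univ _
      rw [hm]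
      exact_mod_cast h1
    set v : ℝ := #VN / Q with hv
    have hv0 : 0 ≤ v := by positivity
    have hvQ : (#VN : ℝ) = v * Q := (div_mul_cancel₀ _ hQpos.ne').symm
    have hvc : v ≤ c := by
      rw [hv, div_le_iff₀ hQpos]
      have : (0 : ℝ) ≤ #(VR G ε d₀ P k) := Nat.cast_nonneg _
      linarith
    clear_value v
    clear hv
    have hmain : 2 - η ≤ (c - v) ^ 2 + v ^ 2 / 2 := by
      have h1 : (#(VR G ε d₀ P k) : ℝ) ≤ (c - v) * Q := by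
        rw [hvQ] at hsum
        linarith
      have h2 : (#(VR G ε d₀ P k) : ℝ) ^ 2 ≤ (c - v) ^ 2 * 2 ^ N := by
        rw [← hQsq, ← mul_pow]
        gcongr
      have h3 : (#VN : ℝ) ^ 2 = v ^ 2 * 2 ^ N := by rw [hvQ, mul_pow, hQsq]
      have h4 : m ≤ η / 4 * 2 ^ N := by
        have h5 : 8 / η ≤ Q := by
          have : (0 : ℝ) ≤ l := by positivity
          linarith
        rw [div_le_iff₀ hη0] at h5
        have h6 : m ≤ 2 * Q := hcard2.trans (by gcongr)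
        rw [← hQsq]
        nlinarith
      have h7 : (2 - η) * 2 ^ N ≤ ((c - v) ^ 2 + v ^ 2 / 2) * 2 ^ N := by
        have h8 : 52 * d₀ * 2 ^ N ≤ η / 2 * 2 ^ N := by gcongr
        nlinarith
      exact le_of_mul_le_mul_right h7 (by positivity)
    have hopt := optim hc0 hc2 hv0 hvc hη1 hη2 hη0.le hmain
    have h3 : (#VN : ℝ) ^ 2 = v ^ 2 * 2 ^ N := by rw [hvQ, mul_pow, hQsq]
    have h4 : v ^ 2 / 2 * 2 ^ N ≤ 2 * (rho c + δ / 2) * 2 ^ N := by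
      gcongr
      linarith
    have h5 : 52 * d₀ * 2 ^ N ≤ δ * 2 ^ N := by gcongr
    nlinarith
  · apply hHQ2.mono le_rfl _ _ subset_rfl
    · have : (4 : ℝ) ^ (k + 1) * ξ / (1 / 2 : ℝ) ^ d ≤ 4 ^ (K + 1) * ξ / (1 / 2 : ℝ) ^ d := by
        have : (4 : ℝ) ^ (k + 1) ≤ 4 ^ (K + 1) := pow_le_pow_right₀ (by norm_num) (by omega)
        gcongr
      linarith
    · have : (k : ℝ) ≤ K := by exact_mod_cast hk.le
      gcongr

end Run7.h576
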