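import Mathlib
import Pool.Agent.Run7.h576.Core

/-!
# The structure theorem for union-generating families
-/

namespace Run7.h576

open Finset

variable {N : ℕ}

/-- The representation graph of a choice of representations. -/
def repGraph {𝓕 : Finset (Finset (Fin N))} (f g : Finset (Fin N) → 𝓕) : SimpleGraph 𝓕 where
  Adj a b := a ≠ b ∧ ((f (a.1 ∪ b.1) = a ∧ g (a.1 ∪ b.1) = b) ∨
    (f (a.1 ∪ b.1) = b ∧ g (a.1 ∪ b.1) = a))
  symm := ⟨by
    rintro a b ⟨h1, h2⟩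
    refine ⟨h1.symm, ?_⟩
    rw [Finset.union_comm]
    exact h2.symm⟩
  loopless := ⟨by
    rintro a ⟨h1, _⟩
    exact h1 rfl⟩

instance {𝓕 : Finset (Finset (Fin N))} (f g : Finset (Fin N) → 𝓕) :
    DecidableRel (repGraph f g).Adj := fun a b => by
  unfold repGraph
  infer_instance

theorem repGraph_unionInj {𝓕 : Finset (Finset (Fin N))} (f g : Finset (Fin N) → 𝓕) :
    UnionInj (repGraph f g) (fun a => a.1) := by
  rintro a b c d ⟨_, h1⟩ ⟨_, h2⟩ h
  simp only at h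
  rw [← h] at h2
  rcases h1 with ⟨h1, h1'⟩ | ⟨h1, h1'⟩ <;> rcases h2 with ⟨h2, h2'⟩ | ⟨h2, h2'⟩
  · exact Or.inl ⟨h1.symm.trans h2, h1'.symm.trans h2'⟩
  · exact Or.inr ⟨h1.symm.trans h2, h1'.symm.trans h2'⟩
  · exact Or.inr ⟨h1'.symm.trans h2', h1.symm.trans h2⟩
  · exact Or.inl ⟨h1'.symm.trans h2', h1.symm.trans h2⟩

theorem repGraph_count {𝓕 : Finset (Finset (Fin N))} (f g : Finset (Fin N) → 𝓕)
    (hfg : ∀ S, (f S).1 ∪ (g S).1 = S) (p : 𝓕 → 𝓕 → Prop) (hp : ∀ a b, p a b → p b a)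
    [DecidableRel p] :
    2 * #{S | f S ≠ g S ∧ p (f S) (g S)} ≤
      #{x : 𝓕 × 𝓕 | (repGraph f g).Adj x.1 x.2 ∧ p x.1 x.2} := by
  set A : Finset (Finset (Fin N)) := {S | f S ≠ g S ∧ p (f S) (g S)} with hA
  set i1 : Finset (Fin N) → 𝓕 × 𝓕 := fun S => (f S, g S) with hi1
  set i2 : Finset (Fin N) → 𝓕 × 𝓕 := fun S => (g S, f S) with hi2
  have inj1 : Function.Injective i1 := by
    intro S T h
    rw [hi1] at h
    simp only [Prod.mk.injEq] at h
    rw [← hfg S, ← hfg T, h.1, h.2]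
  have inj2 : Function.Injective i2 := by
    intro S T h
    rw [hi2] at h
    simp only [Prod.mk.injEq] at h
    rw [← hfg S, ← hfg T, h.1, h.2]
  have hdisj : Disjoint (A.image i1) (A.image i2) := by
    rw [Finset.disjoint_left]
    intro x h1 h2
    rw [Finset.mem_image] at h1 h2
    obtain ⟨S, hS, hSx⟩ := h1
    obtain ⟨T, hT, hTx⟩ := h2
    rw [hi1] at hSx
    rw [hi2] at hTx
    simp only at hSx hTx
    rw [← hTx] at hSx
    simp only [Prod.mk.injEq] at hSx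
    have hST : S = T := by
      rw [← hfg S, ← hfg T, hSx.1, hSx.2, Finset.union_comm]
    rw [hA, Finset.mem_filter] at hS
    apply hS.2.1
    rw [hSx.1, hST]
  have hsub : A.image i1 ∪ A.image i2 ⊆
      ({x : 𝓕 × 𝓕 | (repGraph f g).Adj x.1 x.2 ∧ p x.1 x.2} : Finset (𝓕 × 𝓕)) := by
    intro x hx
    rw [Finset.mem_union, Finset.mem_image, Finset.mem_image] at hx
    rw [Finset.mem_filter]
    refine ⟨Finset.mem_univ _, ?_⟩
    rcases hx with ⟨S, hS, rfl⟩ | ⟨S, hS, rfl⟩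
    · rw [hA, Finset.mem_filter] at hS
      refine ⟨⟨hS.2.1, Or.inl ?_⟩, hS.2.2⟩
      rw [hi1]
      simp only
      rw [hfg S]
      exact ⟨rfl, rfl⟩
    · rw [hA, Finset.mem_filter] at hS
      refine ⟨⟨hS.2.1.symm, Or.inr ?_⟩, hp _ _ hS.2.2⟩
      rw [hi2]
      simp only
      rw [Finset.union_comm, hfg S]
      exact ⟨rfl, rfl⟩
  have := Finset.card_le_card hsub
  rw [Finset.card_union_of_disjoint hdisj, Finset.card_image_of_injective _ inj1,
    Finset.card_image_of_injective _ inj2] at this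
  omega

theorem repGraph_diag {𝓕 : Finset (Finset (Fin N))} (f g : Finset (Fin N) → 𝓕)
    (hfg : ∀ S, (f S).1 ∪ (g S).1 = S) : #{S | f S = g S} ≤ #𝓕 := by
  apply Finset.card_le_card
  intro S hS
  rw [Finset.mem_filter] at hS
  have h1 := hfg S
  rw [← hS.2, Finset.union_self] at h1
  rw [← h1]
  exact (f S).2

theorem two_pow_le_sq {𝓕 : Finset (Finset (Fin N))} (f g : Finset (Fin N) → Finset (Fin N))
    (hf : ∀ S, f S ∈ 𝓕) (hg : ∀ S, g S ∈ 𝓕) (hfg : ∀ S, f S ∪ g S = S) :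
    (2 : ℝ) ^ N ≤ (#𝓕 : ℝ) ^ 2 := by
  have h1 : #(univ : Finset (Finset (Fin N))) ≤ #(𝓕 ×ˢ 𝓕) := by
    apply Finset.card_le_card_of_injOn (fun S => (f S, g S))
    · intro S _
      exact Finset.mk_mem_product (hf S) (hg S)
    · intro S _ T _ h
      simp only [Prod.mk.injEq] at h
      rw [← hfg S, ← hfg T, h.1, h.2]
  rw [Finset.card_product, Finset.card_univ, Fintype.card_finset, Fintype.card_fin, ← sq] at h1
  exact_mod_cast h1

/-- The core structure theorem for families with a choice of representations. -/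
theorem core_family {c : ℝ} (hc0 : √2 ≤ c) (hc2 : c < 2) (d : ℕ) {θ τ δ : ℝ} (hθ : 0 < θ)
    (hτ : 0 < τ) (hδ : 0 < δ) : ∃ C : ℝ, 0 ≤ C ∧ ∃ N₀ : ℕ, ∀ N ≥ N₀,
    ∀ (𝓕 : Finset (Finset (Fin N))), (#𝓕 : ℝ) ≤ c * √(2 ^ N) →
    ∀ f g : Finset (Fin N) → Finset (Fin N), (∀ S, f S ∈ 𝓕) → (∀ S, g S ∈ 𝓕) →
      (∀ S, f S ∪ g S = S) → ∃ 𝓡 ⊆ 𝓕,
        (#{S | ¬ (f S ∈ 𝓡 ∧ g S ∈ 𝓡)} : ℝ) ≤ ((#𝓕 : ℝ) - #𝓡) ^ 2 / 4 + δ * 2 ^ N ∧
        (#{S | ¬ (f S ∈ 𝓡 ∧ g S ∈ 𝓡)} : ℝ) ≤ (rho c + δ) * 2 ^ N ∧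
        HQ id d (θ * #𝓕) τ C 𝓡 := by
  obtain ⟨C, hC, N₁, hN₁⟩ := core hc0 hc2 d hθ hτ (half_pos hδ)
  obtain ⟨N₂, hN₂⟩ : ∃ N₂ : ℕ, (4 / δ) ^ 2 < (2 : ℝ) ^ N₂ :=
    pow_unbounded_of_one_lt _ (by norm_num)
  refine ⟨C, hC, max N₁ N₂, ?_⟩
  intro N hN 𝓕 hcard f g hf hg hfg
  have hNN1 : N₁ ≤ N := (le_max_left _ _).trans hN
  have hNN2 : N₂ ≤ N := (le_max_right _ _).trans hN
  set f' : Finset (Fin N) → 𝓕 := fun S => ⟨f S, hf S⟩ with hf'
  set g' : Finset (Fin N) → 𝓕 := fun S => ⟨g S, hg S⟩ with hg'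
  have hfg' : ∀ S, (f' S).1 ∪ (g' S).1 = S := hfg
  have hc : 0 ≤ c := (Real.sqrt_nonneg 2).trans hc0
  have hcα : Fintype.card 𝓕 = #𝓕 := Fintype.card_coe 𝓕
  set Q : ℝ := √(2 ^ N) with hQ
  have hQsq : Q ^ 2 = 2 ^ N := Real.sq_sqrt (by positivity)
  have hQpos : 0 < Q := Real.sqrt_pos.2 (by positivity)
  have hQbig : 4 / δ ≤ Q := by
    apply le_of_sq_le_sq _ hQpos.le
    rw [hQsq]
    exact hN₂.le.trans (pow_le_pow_right₀ (by norm_num) hNN2)
  have hcount1 := repGraph_count f' g' hfg' (fun _ _ => True) (fun _ _ _ => trivial)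
  have hdiag := repGraph_diag f' g' hfg'
  have hsplit : #{S : Finset (Fin N) | f' S = g' S} + #{S : Finset (Fin N) | ¬ f' S = g' S} = 2 ^ N := by
    have := Finset.card_filter_add_card_filter_not (s := (univ : Finset (Finset (Fin N))))
      (fun S => f' S = g' S)
    rw [Finset.card_univ, Fintype.card_finset, Fintype.card_fin] at this
    exact this
  have hpairs : 2 * ((2 : ℝ) ^ N - Fintype.card 𝓕) ≤
      #{p : 𝓕 × 𝓕 | (repGraph f' g').Adj p.1 p.2} := by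
    simp only [and_true] at hcount1
    have h1 : 2 ^ N ≤ #𝓕 + #{S : Finset (Fin N) | f' S ≠ g' S} := by
      have : #{S : Finset (Fin N) | f' S ≠ g' S} = #{S : Finset (Fin N) | ¬ f' S = g' S} := rfl
      omega
    have h2 : (2 : ℝ) ^ N ≤ #𝓕 + #{S : Finset (Fin N) | f' S ≠ g' S} := by exact_mod_cast h1
    have h3 : 2 * (#{S : Finset (Fin N) | f' S ≠ g' S} : ℝ) ≤
        #{p : 𝓕 × 𝓕 | (repGraph f' g').Adj p.1 p.2} := by exact_mod_cast hcount1
    rw [hcα]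
    linarith
  obtain ⟨R, hR0, hR1, hR2⟩ := hN₁ N hNN1 𝓕 (repGraph f' g') (fun a => a.1) (repGraph_unionInj f' g')
    (by rw [hcα]; exact two_pow_le_sq f g hf hg hfg) (by rw [hcα]; exact hcard) hpairs
  have hlost : (#({S | ¬ (f S ∈ R.map (Function.Embedding.subtype _) ∧
        g S ∈ R.map (Function.Embedding.subtype _))} : Finset (Finset (Fin N))) : ℝ) ≤
      δ / 2 * 2 ^ N + (#({p : 𝓕 × 𝓕 | (repGraph f' g').Adj p.1 p.2 ∧ ¬ (p.1 ∈ R ∧ p.2 ∈ R)} :
        Finset (𝓕 × 𝓕)) : ℝ) / 2 := by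
    have hmem : ∀ a : 𝓕, a.1 ∈ R.map (Function.Embedding.subtype _) ↔ a ∈ R := by
      intro a
      rw [Finset.mem_map]
      constructor
      · rintro ⟨b, hb, hba⟩
        have : b = a := Subtype.ext hba
        rwa [← this]
      · intro ha
        exact ⟨a, ha, rfl⟩
    have hcount2 := repGraph_count f' g' hfg' (fun a b => ¬ (a ∈ R ∧ b ∈ R))
      (fun a b h h' => h ⟨h'.2, h'.1⟩)
    have hsub : ({S | ¬ (f S ∈ R.map (Function.Embedding.subtype _) ∧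
        g S ∈ R.map (Function.Embedding.subtype _))} : Finset (Finset (Fin N))) ⊆
        ({S | f' S = g' S} : Finset (Finset (Fin N))) ∪
        ({S | f' S ≠ g' S ∧ ¬ (f' S ∈ R ∧ g' S ∈ R)} : Finset (Finset (Fin N))) := by
      intro S hS
      rw [Finset.mem_filter] at hS
      rw [Finset.mem_union, Finset.mem_filter, Finset.mem_filter]
      by_cases h : f' S = g' S
      · exact Or.inl ⟨Finset.mem_univ _, h⟩
      · refine Or.inr ⟨Finset.mem_univ _, h, ?_⟩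
        rintro ⟨h1, h2⟩
        exact hS.2 ⟨(hmem _).2 h1, (hmem _).2 h2⟩
    have h1 := (Finset.card_le_card hsub).trans (Finset.card_union_le _ _)
    have h2 : (#({S | ¬ (f S ∈ R.map (Function.Embedding.subtype _) ∧
        g S ∈ R.map (Function.Embedding.subtype _))} : Finset (Finset (Fin N))) : ℝ) ≤
        #𝓕 + #({S | f' S ≠ g' S ∧ ¬ (f' S ∈ R ∧ g' S ∈ R)} : Finset (Finset (Fin N))) := by
      exact_mod_cast h1.trans (Nat.add_le_add_right hdiag _)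
    have h3 : 2 * (#({S | f' S ≠ g' S ∧ ¬ (f' S ∈ R ∧ g' S ∈ R)} : Finset (Finset (Fin N))) : ℝ) ≤
        #({p : 𝓕 × 𝓕 | (repGraph f' g').Adj p.1 p.2 ∧ ¬ (p.1 ∈ R ∧ p.2 ∈ R)} :
        Finset (𝓕 × 𝓕)) := by
      exact_mod_cast hcount2
    have h4 : (#𝓕 : ℝ) ≤ δ / 2 * 2 ^ N := by
      rw [div_le_iff₀ hδ] at hQbig
      have : (#𝓕 : ℝ) ≤ 2 * Q := hcard.trans (by gcongr)
      rw [← hQsq]
      nlinarith
    linarith
  refine ⟨R.map (Function.Embedding.subtype _), ?_, ?_, ?_, ?_⟩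
  · intro F hF
    rw [Finset.mem_map] at hF
    obtain ⟨a, _, rfl⟩ := hF
    exact a.2
  · refine hlost.trans ?_
    rw [Finset.card_map]
    rw [hcα] at hR0
    have : 0 ≤ δ * 2 ^ N := by positivity
    linarith
  · refine hlost.trans ?_
    linarith
  · intro s' hs' hL
    set s'' : Finset 𝓕 := R.filter (fun a => a.1 ∈ s') with hs''
    have hmap : s''.map (Function.Embedding.subtype _) = s' := by
      ext F
      rw [Finset.mem_map]
      constructor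
      · rintro ⟨a, ha, rfl⟩
        rw [hs'', Finset.mem_filter] at ha
        exact ha.2
      · intro hF
        have := hs' hF
        rw [Finset.mem_map] at this
        obtain ⟨a, ha, rfl⟩ := this
        exact ⟨a, Finset.mem_filter.2 ⟨ha, hF⟩, rfl⟩
    have hcs : #s'' = #s' := by
      rw [← hmap, Finset.card_map]
    obtain ⟨𝓥, h1, h2, h3⟩ := hR2 s'' (Finset.filter_subset _ _) (by rw [hcα, hcs]; exact hL)
    refine ⟨𝓥, h1, h2, ?_⟩
    intro D hD hV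
    have h4 := h3 D hD hV
    have h5 : q id s' D = q (fun a : 𝓕 => a.1) s'' D := by
      unfold q
      rw [hcs]
      congr 2
      rw [← hmap, Finset.filter_map, Finset.card_map]
      rfl
    rw [h5]
    exact h4

end Run7.h576
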