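import Mathlib
import Pool.Agent.Run7.h576.Reps

/-!
# Window theorem: preparations
-/

namespace Run7.h576

open Finset

variable {N : ℕ}

theorem chi_singleton (x : Fin N) (S : Finset (Fin N)) :
    chi {x} S = if x ∈ S then (-1 : ℝ) else 1 := by
  rw [chi, Finset.prod_singleton]

theorem card_inter_eq (S X : Finset (Fin N)) :
    (#(S ∩ X) : ℝ) - #X / 2 = -(1 / 2) * ∑ x ∈ X, chi {x} S := by
  have h1 : (#(S ∩ X) : ℝ) = ∑ x ∈ X, if x ∈ S then (1 : ℝ) else 0 := by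
    rw [← Finset.sum_filter, Finset.sum_const, nsmul_eq_mul, mul_one, Finset.filter_mem_eq_inter,
      Finset.inter_comm]
  have h2 : (#X : ℝ) = ∑ x ∈ X, (1 : ℝ) := by simp
  rw [h1, h2, Finset.sum_div, ← Finset.sum_sub_distrib, Finset.mul_sum]
  apply Finset.sum_congr rfl
  intro x _
  rw [chi_singleton]
  split_ifs <;> norm_num

theorem sum_dev_sq (X : Finset (Fin N)) :
    ∑ S : Finset (Fin N), ((#(S ∩ X) : ℝ) - #X / 2) ^ 2 = (#X : ℝ) / 4 * 2 ^ N := by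
  have h1 : ∀ S : Finset (Fin N), ((#(S ∩ X) : ℝ) - #X / 2) ^ 2 =
      1 / 4 * ∑ x ∈ X, ∑ y ∈ X, chi {x} S * chi {y} S := by
    intro S
    rw [card_inter_eq, ← Finset.sum_mul_sum]
    ring
  simp only [h1]
  rw [← Finset.mul_sum, Finset.sum_comm]
  have h2 : ∀ x ∈ X, ∑ S : Finset (Fin N), ∑ y ∈ X, chi {x} S * chi {y} S = 2 ^ N := by
    intro x hx
    rw [Finset.sum_comm]
    simp only [sum_chi_mul]
    rw [Finset.sum_eq_single x]
    · simp
    · intro y _ hy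
      rw [if_neg]
      intro h
      exact hy (Finset.singleton_injective h).symm
    · intro h
      exact absurd hx h
  rw [Finset.sum_congr rfl h2, Finset.sum_const, nsmul_eq_mul]
  ring

/-- Few sets have an unusual intersection with `X`. -/
theorem card_dev (X : Finset (Fin N)) {a : ℝ} (ha : 0 < a) :
    (#{S : Finset (Fin N) | a < |(#(S ∩ X) : ℝ) - #X / 2|} : ℝ) * a ^ 2 ≤ N / 4 * 2 ^ N := by
  have h1 : (#{S : Finset (Fin N) | a < |(#(S ∩ X) : ℝ) - #X / 2|} : ℝ) * a ^ 2 ≤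
      ∑ S : Finset (Fin N), ((#(S ∩ X) : ℝ) - #X / 2) ^ 2 := by
    calc (#{S : Finset (Fin N) | a < |(#(S ∩ X) : ℝ) - #X / 2|} : ℝ) * a ^ 2 =
          ∑ S ∈ ({S : Finset (Fin N) | a < |(#(S ∩ X) : ℝ) - #X / 2|} :
            Finset (Finset (Fin N))), a ^ 2 := by
            rw [Finset.sum_const, nsmul_eq_mul]
      _ ≤ ∑ S ∈ ({S : Finset (Fin N) | a < |(#(S ∩ X) : ℝ) - #X / 2|} :
            Finset (Finset (Fin N))), ((#(S ∩ X) : ℝ) - #X / 2) ^ 2 := by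
            apply Finset.sum_le_sum
            intro S hS
            rw [Finset.mem_filter] at hS
            rw [← sq_abs ((#(S ∩ X) : ℝ) - #X / 2)]
            have := hS.2
            gcongr
      _ ≤ _ := Finset.sum_le_sum_of_subset_of_nonneg (Finset.filter_subset _ _)
            (fun _ _ _ => sq_nonneg _)
  rw [sum_dev_sq] at h1
  refine h1.trans ?_
  have : (#X : ℝ) ≤ N := by
    have := Finset.card_le_univ X
    rw [Fintype.card_fin] at this
    exact_mod_cast this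
  gcongr

/-- The average intersection of a quasirandom family with `X`. -/
theorem avg_inter {s : Finset (Finset (Fin N))} {τ C : ℝ} (hτ : 0 ≤ τ)
    {𝓥 : Finset (Finset (Fin N))} (h1 : ∀ V ∈ 𝓥, V.Nonempty) (h2 : (#𝓥 : ℝ) ≤ C)
    (h3 : ∀ D : Finset (Fin N), #D ≤ 1 → (∀ V ∈ 𝓥, ¬ V ⊆ D) → |q id s D - rt ^ #D| ≤ τ)
    (X : Finset (Fin N)) :
    |∑ F ∈ s, (#(F ∩ X) : ℝ) - (1 - rt) * #X * #s| ≤ (τ * N + C) * #s := by
  rcases s.eq_empty_or_nonempty with rfl | hs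
  · simp
  have hs0 : (0 : ℝ) < #s := by exact_mod_cast hs.card_pos
  have e1 : ∑ F ∈ s, (#(F ∩ X) : ℝ) = ∑ x ∈ X, (#{F ∈ s | x ∈ F} : ℝ) := by
    have : ∀ F ∈ s, (#(F ∩ X) : ℝ) = ∑ x ∈ X, if x ∈ F then (1 : ℝ) else 0 := by
      intro F _
      rw [← Finset.sum_filter, Finset.sum_const, nsmul_eq_mul, mul_one,
        Finset.filter_mem_eq_inter, Finset.inter_comm]
    rw [Finset.sum_congr rfl this, Finset.sum_comm]
    apply Finset.sum_congr rfl
    intro x _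
    rw [← Finset.sum_filter, Finset.sum_const, nsmul_eq_mul, mul_one]
  have e2 : (1 - rt) * #X * #s = ∑ x ∈ X, (1 - rt) * (#s : ℝ) := by
    rw [Finset.sum_const, nsmul_eq_mul]; ring
  have e3 : ∀ x : Fin N, (#{F ∈ s | x ∈ F} : ℝ) = (1 - q id s {x}) * #s := by
    intro x
    have h4 : #{F ∈ s | x ∈ F} + #{F ∈ s | ¬ x ∈ F} = #s :=
      Finset.card_filter_add_card_filter_not (s := s) (fun F => x ∈ F)
    have h5 : ({F ∈ s | Disjoint (id F) {x}}) = {F ∈ s | ¬ x ∈ F} := by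
      ext F
      simp
    have h6 : (#{F ∈ s | x ∈ F} : ℝ) + #{F ∈ s | ¬ x ∈ F} = #s := by exact_mod_cast h4
    unfold q
    rw [h5]
    field_simp
    linarith
  rw [e1, e2, ← Finset.sum_sub_distrib]
  refine (Finset.abs_sum_le_sum_abs _ _).trans ?_
  have hterm : ∀ x ∈ X, |(#{F ∈ s | x ∈ F} : ℝ) - (1 - rt) * #s| ≤
      τ * #s + if ({x} : Finset (Fin N)) ∈ 𝓥 then (#s : ℝ) else 0 := by
    intro x _
    rw [e3]
    split_ifs with hx
    · have a1 := q_nonneg id s {x}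
      have a2 := q_le_one id s {x}
      have a3 := rt_pos
      have a4 := rt_lt_one
      have : (1 - q id s {x}) * (#s : ℝ) - (1 - rt) * #s = (rt - q id s {x}) * #s := by ring
      rw [this, abs_mul, abs_of_pos hs0]
      have a5 : |rt - q id s {x}| ≤ 1 := by rw [abs_le]; constructor <;> linarith
      have : |rt - q id s {x}| * #s ≤ 1 * #s := by gcongr
      have : 0 ≤ τ * #s := by positivity
      linarith
    · have h4 : |q id s {x} - rt ^ #({x} : Finset (Fin N))| ≤ τ := by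
        apply h3 {x} (by simp)
        intro V hV hsub
        rcases Finset.subset_singleton_iff.1 hsub with h | h
        · exact (h1 V hV).ne_empty h
        · exact hx (h ▸ hV)
      rw [Finset.card_singleton, pow_one] at h4
      have : (1 - q id s {x}) * (#s : ℝ) - (1 - rt) * #s = -(q id s {x} - rt) * #s := by ring
      rw [this, abs_mul, abs_neg, abs_of_pos hs0, add_zero]
      gcongr
  refine (Finset.sum_le_sum hterm).trans ?_
  rw [Finset.sum_add_distrib, Finset.sum_const, nsmul_eq_mul, ← Finset.sum_filter,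
    Finset.sum_const, nsmul_eq_mul]
  have hX : (#X : ℝ) ≤ N := by
    have := Finset.card_le_univ X
    rw [Fintype.card_fin] at this
    exact_mod_cast this
  have hb : (#{x ∈ X | ({x} : Finset (Fin N)) ∈ 𝓥} : ℝ) ≤ C := by
    refine le_trans ?_ h2
    have : #{x ∈ X | ({x} : Finset (Fin N)) ∈ 𝓥} ≤ #𝓥 := by
      apply Finset.card_le_card_of_injOn (fun x => ({x} : Finset (Fin N)))
      · intro x hx
        exact (Finset.mem_filter.1 hx).2
      · intro x _ y _ h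
        exact Finset.singleton_injective h
    exact_mod_cast this
  rw [add_mul]
  have : (#X : ℝ) * (τ * #s) ≤ τ * N * #s := by
    calc (#X : ℝ) * (τ * #s) ≤ N * (τ * #s) := by gcongr
      _ = _ := by ring
  have : (#{x ∈ X | ({x} : Finset (Fin N)) ∈ 𝓥} : ℝ) * #s ≤ C * #s := by gcongr
  linarith

/-- In a hereditarily quasirandom family few members have an unusual intersection with `X`. -/
theorem few_unusual {𝓡 : Finset (Finset (Fin N))} {L τ C η : ℝ} (hτ : 0 ≤ τ) (hL : 0 < L)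
    (hHQ : HQ id 1 L τ C 𝓡) (X : Finset (Fin N)) (hη : τ * N + C < η * N) :
    (#{F ∈ 𝓡 | η * N < |(#(F ∩ X) : ℝ) - (1 - rt) * #X|} : ℝ) ≤ 2 * L := by
  have h1 : (#{F ∈ 𝓡 | η * N < (#(F ∩ X) : ℝ) - (1 - rt) * #X} : ℝ) ≤ L := by
    by_contra hcon
    push Not at hcon
    set s := {F ∈ 𝓡 | η * N < (#(F ∩ X) : ℝ) - (1 - rt) * #X} with hs
    obtain ⟨𝓥, a1, a2, a3⟩ := hHQ s (Finset.filter_subset _ _) hcon.le
    have h4 := avg_inter hτ a1 a2 a3 X
    have hs0 : (0 : ℝ) < #s := hL.trans hcon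
    have h5 : ∑ F ∈ s, ((1 - rt) * #X + η * N) ≤ ∑ F ∈ s, (#(F ∩ X) : ℝ) := by
      apply Finset.sum_le_sum
      intro F hF
      rw [hs, Finset.mem_filter] at hF
      linarith [hF.2]
    rw [Finset.sum_const, nsmul_eq_mul] at h5
    have h6 := (abs_le.1 h4).2
    have h7 : η * N * #s ≤ (τ * N + C) * #s := by nlinarith
    have h8 := le_of_mul_le_mul_right h7 hs0
    linarith
  have h2 : (#{F ∈ 𝓡 | η * N < -((#(F ∩ X) : ℝ) - (1 - rt) * #X)} : ℝ) ≤ L := by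
    by_contra hcon
    push Not at hcon
    set s := {F ∈ 𝓡 | η * N < -((#(F ∩ X) : ℝ) - (1 - rt) * #X)} with hs
    obtain ⟨𝓥, a1, a2, a3⟩ := hHQ s (Finset.filter_subset _ _) hcon.le
    have h4 := avg_inter hτ a1 a2 a3 X
    have hs0 : (0 : ℝ) < #s := hL.trans hcon
    have h5 : ∑ F ∈ s, (#(F ∩ X) : ℝ) ≤ ∑ F ∈ s, ((1 - rt) * #X - η * N) := by
      apply Finset.sum_le_sum
      intro F hF
      rw [hs, Finset.mem_filter] at hF
      linarith [hF.2]
    rw [Finset.sum_const, nsmul_eq_mul] at h5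
    have h6 := (abs_le.1 h4).1
    have h7 : η * N * #s ≤ (τ * N + C) * #s := by nlinarith
    have h8 := le_of_mul_le_mul_right h7 hs0
    linarith
  have h3 : #{F ∈ 𝓡 | η * N < |(#(F ∩ X) : ℝ) - (1 - rt) * #X|} ≤
      #{F ∈ 𝓡 | η * N < (#(F ∩ X) : ℝ) - (1 - rt) * #X} +
      #{F ∈ 𝓡 | η * N < -((#(F ∩ X) : ℝ) - (1 - rt) * #X)} := by
    refine le_trans (Finset.card_le_card ?_) (Finset.card_union_le _ _)
    intro F hF
    rw [Finset.mem_filter] at hF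
    rw [Finset.mem_union, Finset.mem_filter, Finset.mem_filter]
    rcases lt_abs.1 hF.2 with h | h
    · exact Or.inl ⟨hF.1, h⟩
    · exact Or.inr ⟨hF.1, h⟩
  have h3' : (#{F ∈ 𝓡 | η * N < |(#(F ∩ X) : ℝ) - (1 - rt) * #X|} : ℝ) ≤
      #{F ∈ 𝓡 | η * N < (#(F ∩ X) : ℝ) - (1 - rt) * #X} +
      #{F ∈ 𝓡 | η * N < -((#(F ∩ X) : ℝ) - (1 - rt) * #X)} := by exact_mod_cast h3
  linarith

/-- Sets represented with a member of a small family are few. -/
theorem card_rep_mem {𝓕 𝓑 : Finset (Finset (Fin N))} (f g : Finset (Fin N) → Finset (Fin N))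
    (hg : ∀ S, g S ∈ 𝓕) (hfg : ∀ S, f S ∪ g S = S) :
    #{S | f S ∈ 𝓑} ≤ #𝓑 * #𝓕 := by
  rw [← Finset.card_product]
  apply Finset.card_le_card_of_injOn (fun S => (f S, g S))
  · intro S hS
    rw [Finset.mem_coe, Finset.mem_filter] at hS
    exact Finset.mk_mem_product hS.2 (hg S)
  · intro S _ T _ h
    simp only [Prod.mk.injEq] at h
    rw [← hfg S, ← hfg T, h.1, h.2]

/-- A choice of representations which prefers a given kind of representations. -/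
theorem exists_choice {𝓕 : Finset (Finset (Fin N))}
    (hgen : ∀ S : Finset (Fin N), ∃ F₁ ∈ 𝓕, ∃ F₂ ∈ 𝓕, F₁ ∪ F₂ = S)
    (p : Finset (Fin N) → Finset (Fin N) → Prop) :
    ∃ f g : Finset (Fin N) → Finset (Fin N), (∀ S, f S ∈ 𝓕) ∧ (∀ S, g S ∈ 𝓕) ∧
      (∀ S, f S ∪ g S = S) ∧
      ∀ S, (∃ F₁ ∈ 𝓕, ∃ F₂ ∈ 𝓕, F₁ ∪ F₂ = S ∧ p F₁ F₂) → p (f S) (g S) := by
  classical
  have h : ∀ S : Finset (Fin N), ∃ x : Finset (Fin N) × Finset (Fin N), x.1 ∈ 𝓕 ∧ x.2 ∈ 𝓕 ∧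
      x.1 ∪ x.2 = S ∧ ((∃ F₁ ∈ 𝓕, ∃ F₂ ∈ 𝓕, F₁ ∪ F₂ = S ∧ p F₁ F₂) → p x.1 x.2) := by
    intro S
    by_cases hS : ∃ F₁ ∈ 𝓕, ∃ F₂ ∈ 𝓕, F₁ ∪ F₂ = S ∧ p F₁ F₂
    · obtain ⟨F₁, h1, F₂, h2, h3, h4⟩ := hS
      exact ⟨(F₁, F₂), h1, h2, h3, fun _ => h4⟩
    · obtain ⟨F₁, h1, F₂, h2, h3⟩ := hgen S
      exact ⟨(F₁, F₂), h1, h2, h3, fun h => absurd h hS⟩
  choose x hx using h
  exact ⟨fun S => (x S).1, fun S => (x S).2, fun S => (hx S).1, fun S => (hx S).2.1,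
    fun S => (hx S).2.2.1, fun S => (hx S).2.2.2⟩

end Run7.h576
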