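import Mathlib
import Pool.Agent.Run7.h576.Window

/-!
# Traces of quasirandom families, and classes of members with the same union
-/

namespace Run7.h576

open Finset

variable {N : ℕ}

theorem ind_trace (G D T : Finset (Fin N)) (hT : T ⊆ D) :
    (if G ∩ D = T then (1 : ℝ) else 0) =
      ∑ U ∈ T.powerset, (-1) ^ #U * (if Disjoint G ((D \ T) ∪ U) then (1 : ℝ) else 0) := by
  have h1 : ∏ i ∈ T, ((1 : ℝ) + (-(if i ∈ G then (0 : ℝ) else 1))) =
      ∑ U ∈ T.powerset, ∏ i ∈ U, (-(if i ∈ G then (0 : ℝ) else 1)) := Finset.prod_one_add _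
  have h2 : ∀ U : Finset (Fin N), ∏ i ∈ U, (-(if i ∈ G then (0 : ℝ) else 1)) =
      (-1) ^ #U * (if Disjoint G U then (1 : ℝ) else 0) := by
    intro U
    split_ifs with h
    · have : ∀ i ∈ U, (-(if i ∈ G then (0 : ℝ) else 1)) = -1 := by
        intro i hi
        have : i ∉ G := fun h' => (Finset.disjoint_left.1 h) h' hi
        simp [this]
      rw [Finset.prod_congr rfl this, Finset.prod_const, mul_one]
    · rw [Finset.not_disjoint_iff] at h
      obtain ⟨x, hx1, hx2⟩ := h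
      rw [mul_zero]
      exact Finset.prod_eq_zero hx2 (by simp [hx1])
  have h3 : ∏ i ∈ T, ((1 : ℝ) + (-(if i ∈ G then (0 : ℝ) else 1))) =
      if T ⊆ G then (1 : ℝ) else 0 := by
    split_ifs with h
    · apply Finset.prod_eq_one
      intro i hi
      simp [h hi]
    · rw [Finset.not_subset] at h
      obtain ⟨x, hx1, hx2⟩ := h
      exact Finset.prod_eq_zero hx1 (by simp [hx2])
  have h4 : (if G ∩ D = T then (1 : ℝ) else 0) =
      (if Disjoint G (D \ T) then (1 : ℝ) else 0) * (if T ⊆ G then (1 : ℝ) else 0) := by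
    by_cases h5 : G ∩ D = T
    · have h6 : Disjoint G (D \ T) := by
        rw [Finset.disjoint_left]
        intro x hx1 hx2
        rw [Finset.mem_sdiff] at hx2
        exact hx2.2 (h5 ▸ Finset.mem_inter.2 ⟨hx1, hx2.1⟩)
      have h7 : T ⊆ G := by
        intro x hx
        rw [← h5] at hx
        exact (Finset.mem_inter.1 hx).1
      simp [h5, h6, h7]
    · rw [if_neg h5]
      by_cases h6 : Disjoint G (D \ T)
      · by_cases h7 : T ⊆ G
        · exfalso
          apply h5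
          ext x
          rw [Finset.mem_inter]
          constructor
          · rintro ⟨hx1, hx2⟩
            by_contra hx3
            exact (Finset.disjoint_left.1 h6) hx1 (Finset.mem_sdiff.2 ⟨hx2, hx3⟩)
          · intro hx
            exact ⟨h7 hx, hT hx⟩
        · simp [h7]
      · simp [h6]
  rw [h4, ← h3, h1, Finset.mul_sum]
  apply Finset.sum_congr rfl
  intro U _
  rw [h2]
  by_cases h6 : Disjoint G (D \ T)
  · by_cases h7 : Disjoint G U
    · have : Disjoint G ((D \ T) ∪ U) := Finset.disjoint_union_right.2 ⟨h6, h7⟩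
      simp [h6, h7, this]
    · have : ¬ Disjoint G ((D \ T) ∪ U) := fun h => h7 (Finset.disjoint_union_right.1 h).2
      simp [h7, this]
  · have : ¬ Disjoint G ((D \ T) ∪ U) := fun h => h6 (Finset.disjoint_union_right.1 h).1
    simp [h6, this]

theorem card_trace (s : Finset (Finset (Fin N))) (D T : Finset (Fin N)) (hT : T ⊆ D) :
    (#{G ∈ s | G ∩ D = T} : ℝ) =
      ∑ U ∈ T.powerset, (-1) ^ #U * (#{G ∈ s | Disjoint G ((D \ T) ∪ U)} : ℝ) := by
  have h1 : (#{G ∈ s | G ∩ D = T} : ℝ) = ∑ G ∈ s, if G ∩ D = T then (1 : ℝ) else 0 := by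
    rw [← Finset.sum_filter, Finset.sum_const, nsmul_eq_mul, mul_one]
  rw [h1, Finset.sum_congr rfl (fun G _ => ind_trace G D T hT), Finset.sum_comm]
  apply Finset.sum_congr rfl
  intro U _
  rw [← Finset.mul_sum, ← Finset.sum_filter, Finset.sum_const, nsmul_eq_mul, mul_one]

theorem sum_powerset_neg_rt (T : Finset (Fin N)) :
    ∑ U ∈ T.powerset, (-1 : ℝ) ^ #U * rt ^ #U = (1 - rt) ^ #T := by
  have h1 : ∏ i ∈ T, ((1 : ℝ) + (-rt)) = ∑ U ∈ T.powerset, ∏ i ∈ U, (-rt) :=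
    Finset.prod_one_add _
  rw [Finset.prod_const] at h1
  have h2 : (1 : ℝ) + -rt = 1 - rt := by ring
  rw [h2] at h1
  rw [h1]
  apply Finset.sum_congr rfl
  intro U _
  rw [Finset.prod_const, ← mul_pow]
  congr 1
  ring

/-- The proportion of members with a given trace. -/
theorem trace_prop {s : Finset (Finset (Fin N))} (hs : s.Nonempty) {τ : ℝ} {D : Finset (Fin N)}
    (h : ∀ D' ⊆ D, |q id s D' - rt ^ #D'| ≤ τ) {T : Finset (Fin N)} (hT : T ⊆ D) :
    |(#{G ∈ s | G ∩ D = T} : ℝ) / #s - (1 - rt) ^ #T * rt ^ (#D - #T)| ≤ 2 ^ #T * τ := by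
  have hs0 : (0 : ℝ) < #s := by exact_mod_cast hs.card_pos
  have h1 : (#{G ∈ s | G ∩ D = T} : ℝ) / #s =
      ∑ U ∈ T.powerset, (-1) ^ #U * q id s ((D \ T) ∪ U) := by
    rw [card_trace s D T hT, Finset.sum_div]
    apply Finset.sum_congr rfl
    intro U _
    unfold q
    rw [mul_div_assoc]
    rfl
  have h2 : (1 - rt) ^ #T * rt ^ (#D - #T) =
      ∑ U ∈ T.powerset, (-1) ^ #U * rt ^ #((D \ T) ∪ U) := by
    rw [← sum_powerset_neg_rt, Finset.sum_mul]
    apply Finset.sum_congr rfl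
    intro U hU
    rw [Finset.mem_powerset] at hU
    have hdisj : Disjoint (D \ T) U := by
      rw [Finset.disjoint_left]
      intro x hx1 hx2
      exact (Finset.mem_sdiff.1 hx1).2 (hU hx2)
    rw [Finset.card_union_of_disjoint hdisj, Finset.card_sdiff_of_subset hT, pow_add]
    ring
  rw [h1, h2, ← Finset.sum_sub_distrib]
  refine (Finset.abs_sum_le_sum_abs _ _).trans ?_
  have h3 : ∀ U ∈ T.powerset, |(-1) ^ #U * q id s ((D \ T) ∪ U) -
      (-1) ^ #U * rt ^ #((D \ T) ∪ U)| ≤ τ := by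
    intro U hU
    rw [Finset.mem_powerset] at hU
    rw [← mul_sub, abs_mul, abs_pow, abs_neg, abs_one, one_pow, one_mul]
    apply h
    exact Finset.union_subset Finset.sdiff_subset (hU.trans hT)
  refine (Finset.sum_le_sum h3).trans ?_
  rw [Finset.sum_const, Finset.card_powerset, nsmul_eq_mul]
  push_cast
  exact le_rfl

/-- Members of a quasirandom family contain many of given disjoint small sets. -/
theorem few_avoiding {𝓡 : Finset (Finset (Fin N))} {L τ C : ℝ} {d K : ℕ} (hL : 0 < L) (hτ : 0 ≤ τ)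
    (hHQ : HQ id d L τ C 𝓡) (D : Fin K → Finset (Fin N)) (hD : ∀ i, #(D i) ≤ d)
    (hdisj : ∀ i j, i ≠ j → Disjoint (D i) (D j)) (K₁ : ℕ)
    (hτd : 2 ^ d * τ ≤ (1 - rt) ^ d / 2)
    (hK : (K₁ : ℝ) ≤ (K - C) * ((1 - rt) ^ d / 2)) :
    (#{G ∈ 𝓡 | #{i | D i ⊆ G} < K₁} : ℝ) ≤ L := by
  classical
  by_contra hcon
  push Not at hcon
  set s := {G ∈ 𝓡 | #{i | D i ⊆ G} < K₁} with hs
  obtain ⟨𝓥, a1, a2, a3⟩ := hHQ s (Finset.filter_subset _ _) hcon.le
  have hs0 : (0 : ℝ) < #s := hL.trans hcon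
  have hsne : s.Nonempty := by rw [← Finset.card_pos]; exact_mod_cast hs0
  set I : Finset (Fin K) := {i | ∀ V ∈ 𝓥, ¬ V ⊆ D i} with hI
  have h1r : 0 < 1 - rt := by linarith [rt_lt_one]
  have h1r1 : 1 - rt ≤ 1 := by linarith [rt_pos]
  -- few exceptional indices
  have hIc : (#(univ \ I) : ℝ) ≤ C := by
    refine le_trans ?_ a2
    have : ∀ i ∈ univ \ I, ∃ V ∈ 𝓥, V ⊆ D i := by
      intro i hi
      rw [Finset.mem_sdiff, hI, Finset.mem_filter] at hi
      have := hi.2
      push Not at this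
      exact this (Finset.mem_univ _)
    choose! W hW1 hW2 using this
    have : #(univ \ I) ≤ #𝓥 := by
      apply Finset.card_le_card_of_injOn W
      · intro i hi
        exact hW1 i hi
      · intro i hi j hj hij
        by_contra hne
        have hd := hdisj i j hne
        obtain ⟨x, hx⟩ := a1 (W i) (hW1 i hi)
        exact (Finset.disjoint_left.1 hd) (hW2 i hi hx) (hW2 j hj (hij ▸ hx))
    exact_mod_cast this
  have hIcard : (K : ℝ) - C ≤ #I := by
    have h2 : #I + #(univ \ I) = K := by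
      rw [Finset.card_sdiff_of_subset (Finset.subset_univ _), Finset.card_univ, Fintype.card_fin]
      have : #I ≤ K := by
        have := Finset.card_le_univ I
        rwa [Fintype.card_fin] at this
      omega
    have h3 : (#I : ℝ) + #(univ \ I) = K := by exact_mod_cast h2
    linarith
  have hprop : ∀ i ∈ I, (1 - rt) ^ d / 2 * #s ≤ (#{G ∈ s | D i ⊆ G} : ℝ) := by
    intro i hi
    rw [hI, Finset.mem_filter] at hi
    have h4 : ∀ D' ⊆ D i, |q id s D' - rt ^ #D'| ≤ τ := by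
      intro D' hD'
      apply a3 D' ((Finset.card_le_card hD').trans (hD i))
      intro V hV hsub
      exact hi.2 V hV (hsub.trans hD')
    have h5 := trace_prop hsne h4 (subset_rfl : D i ⊆ D i)
    have h6 : {G ∈ s | G ∩ D i = D i} = {G ∈ s | D i ⊆ G} := by
      apply Finset.filter_congr
      intro G _
      exact Finset.inter_eq_right
    rw [h6, Nat.sub_self, pow_zero, mul_one] at h5
    have h7 := (abs_le.1 h5).1
    have h8 : (1 - rt) ^ d ≤ (1 - rt) ^ #(D i) := pow_le_pow_of_le_one h1r.le h1r1 (hD i)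
    have h9 : (2 : ℝ) ^ #(D i) * τ ≤ 2 ^ d * τ := by
      have : (2 : ℝ) ^ #(D i) ≤ 2 ^ d := pow_le_pow_right₀ (by norm_num) (hD i)
      gcongr
    have h10 : (1 - rt) ^ d / 2 ≤ (#{G ∈ s | D i ⊆ G} : ℝ) / #s := by linarith
    rwa [le_div_iff₀ hs0] at h10
  -- double counting
  have hdc : ∑ G ∈ s, (#{i | D i ⊆ G} : ℝ) = ∑ i : Fin K, (#{G ∈ s | D i ⊆ G} : ℝ) := by
    have e1 : ∀ G ∈ s, (#{i | D i ⊆ G} : ℝ) = ∑ i : Fin K, if D i ⊆ G then (1 : ℝ) else 0 := by
      intro G _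
      rw [← Finset.sum_filter, Finset.sum_const, nsmul_eq_mul, mul_one]
    rw [Finset.sum_congr rfl e1, Finset.sum_comm]
    apply Finset.sum_congr rfl
    intro i _
    rw [← Finset.sum_filter, Finset.sum_const, nsmul_eq_mul, mul_one]
  have hup : ∑ G ∈ s, (#{i | D i ⊆ G} : ℝ) < ∑ G ∈ s, (K₁ : ℝ) := by
    apply Finset.sum_lt_sum_of_nonempty hsne
    intro G hG
    rw [hs, Finset.mem_filter] at hG
    exact_mod_cast hG.2
  have hlow : (#I : ℝ) * ((1 - rt) ^ d / 2 * #s) ≤ ∑ i : Fin K, (#{G ∈ s | D i ⊆ G} : ℝ) := by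
    calc (#I : ℝ) * ((1 - rt) ^ d / 2 * #s) = ∑ i ∈ I, ((1 - rt) ^ d / 2 * #s) := by
          rw [Finset.sum_const, nsmul_eq_mul]
      _ ≤ ∑ i ∈ I, (#{G ∈ s | D i ⊆ G} : ℝ) := Finset.sum_le_sum hprop
      _ ≤ _ := Finset.sum_le_sum_of_subset_of_nonneg (Finset.subset_univ _)
          (fun _ _ _ => Nat.cast_nonneg _)
  rw [hdc, Finset.sum_const, nsmul_eq_mul] at hup
  have h11 : ((K : ℝ) - C) * ((1 - rt) ^ d / 2 * #s) ≤ #I * ((1 - rt) ^ d / 2 * #s) := by
    have : 0 ≤ (1 - rt) ^ d / 2 * (#s : ℝ) := by positivity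
    gcongr
  have h12 : (K₁ : ℝ) * #s ≤ (K - C) * ((1 - rt) ^ d / 2) * #s := by gcongr
  nlinarith

/-- Members of `𝓕` in a large class for `G` give few unions with `G`. -/
theorem card_unions_class {𝓕 : Finset (Finset (Fin N))} (G : Finset (Fin N))
    (𝓢 : Finset (Finset (Fin N))) (k : ℕ) (h : ∀ S ∈ 𝓢, k ≤ #{F ∈ 𝓕 | F ∪ G = S}) :
    #𝓢 * k ≤ #𝓕 := by
  classical
  calc #𝓢 * k = ∑ S ∈ 𝓢, k := by rw [Finset.sum_const, smul_eq_mul]
    _ ≤ ∑ S ∈ 𝓢, #{F ∈ 𝓕 | F ∪ G = S} := Finset.sum_le_sum h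
    _ = #(𝓢.biUnion (fun S => {F ∈ 𝓕 | F ∪ G = S})) := by
        rw [Finset.card_biUnion]
        intro S _ T _ hne
        show Disjoint {F ∈ 𝓕 | F ∪ G = S} {F ∈ 𝓕 | F ∪ G = T}
        rw [Finset.disjoint_left]
        intro F h1 h2
        exact hne ((Finset.mem_filter.1 h1).2.symm.trans (Finset.mem_filter.1 h2).2)
    _ ≤ #𝓕 := by
        apply Finset.card_le_card
        intro F hF
        rw [Finset.mem_biUnion] at hF
        obtain ⟨S, _, hF⟩ := hF
        exact (Finset.mem_filter.1 hF).1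

end Run7.h576
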