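import Mathlib
import Pool.Agent.Run7.h576.Trace

/-!
# Families all of whose members have a few Hamming neighbours
-/

namespace Run7.h576

open Finset

variable {N : ℕ}

/-- The number of distinct unions with `G`, bounded with class sizes. -/
theorem card_image_union_le (𝓕 : Finset (Finset (Fin N))) (G : Finset (Fin N))
    (w : Finset (Fin N) → ℕ) (hw : ∀ F ∈ 𝓕, w F + 1 ≤ #{F' ∈ 𝓕 | F' ∪ G = F ∪ G}) :
    (#(𝓕.image (fun F => F ∪ G)) : ℝ) ≤ ∑ F ∈ 𝓕, 1 / ((w F : ℝ) + 1) := by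
  classical
  have h1 : ∀ F ∈ 𝓕, F ∪ G ∈ 𝓕.image (fun F => F ∪ G) := fun F hF =>
    Finset.mem_image_of_mem _ hF
  rw [← Finset.sum_fiberwise_of_maps_to h1]
  have h2 : (#(𝓕.image (fun F => F ∪ G)) : ℝ) = ∑ S ∈ 𝓕.image (fun F => F ∪ G), (1 : ℝ) := by
    simp
  rw [h2]
  apply Finset.sum_le_sum
  intro S hS
  rw [Finset.mem_image] at hS
  obtain ⟨F₀, hF₀, rfl⟩ := hS
  have hpos : (0 : ℝ) < #{F' ∈ 𝓕 | F' ∪ G = F₀ ∪ G} := by
    have : 0 < #{F' ∈ 𝓕 | F' ∪ G = F₀ ∪ G} := by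
      have := hw F₀ hF₀
      omega
    exact_mod_cast this
  calc (1 : ℝ) = ∑ F ∈ 𝓕 with F ∪ G = F₀ ∪ G, 1 / (#{F' ∈ 𝓕 | F' ∪ G = F₀ ∪ G} : ℝ) := by
        rw [Finset.sum_const, nsmul_eq_mul]
        field_simp
    _ ≤ _ := by
        apply Finset.sum_le_sum
        intro F hF
        rw [Finset.mem_filter] at hF
        have h3 := hw F hF.1
        rw [hF.2] at h3
        have h4 : ((w F : ℝ) + 1) ≤ #{F' ∈ 𝓕 | F' ∪ G = F₀ ∪ G} := by exact_mod_cast h3
        apply one_div_le_one_div_of_le _ h4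
        positivity

/-- The class of `F` contains the neighbours in directions of `G`. -/
theorem class_ge {𝓕 : Finset (Finset (Fin N))} {F G D : Finset (Fin N)} (hF : F ∈ 𝓕)
    (hD : ∀ x ∈ D, symmDiff F {x} ∈ 𝓕) :
    #(G ∩ D) + 1 ≤ #{F' ∈ 𝓕 | F' ∪ G = F ∪ G} := by
  classical
  have hinj : Set.InjOn (fun x => symmDiff F ({x} : Finset (Fin N))) ((G ∩ D : Finset (Fin N)) : Set (Fin N)) := by
    intro x _ y _ h
    exact Finset.singleton_injective (symmDiff_right_injective _ h)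
  have hnot : F ∉ (G ∩ D).image (fun x => symmDiff F ({x} : Finset (Fin N))) := by
    intro h
    rw [Finset.mem_image] at h
    obtain ⟨x, _, hx⟩ := h
    exact (Finset.singleton_nonempty x).ne_empty (symmDiff_eq_left.1 hx)
  have hsub : insert F ((G ∩ D).image (fun x => symmDiff F ({x} : Finset (Fin N)))) ⊆
      {F' ∈ 𝓕 | F' ∪ G = F ∪ G} := by
    intro F' hF'
    rw [Finset.mem_insert, Finset.mem_image] at hF'
    rw [Finset.mem_filter]
    rcases hF' with rfl | ⟨x, hx, rfl⟩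
    · exact ⟨hF, rfl⟩
    · rw [Finset.mem_inter] at hx
      refine ⟨hD x hx.2, ?_⟩
      ext y
      rw [Finset.mem_union, Finset.mem_symmDiff, Finset.mem_union, Finset.mem_singleton]
      by_cases hy : y = x
      · rw [hy]
        simp [hx.1]
      · simp [hy]
  have := Finset.card_le_card hsub
  rw [Finset.card_insert_of_notMem hnot, Finset.card_image_of_injOn hinj] at this
  exact this

/-- The average of `1 / (1 + Bin(K, 1 - rt))`. -/
noncomputable def wK (K : ℕ) : ℝ := (1 - rt ^ (K + 1)) / ((K + 1) * (1 - rt))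

theorem binom_avg (K : ℕ) :
    ∑ j ∈ range (K + 1), (K.choose j : ℝ) * ((1 - rt) ^ j * rt ^ (K - j) / (j + 1)) = wK K := by
  have h1r : 0 < 1 - rt := by linarith [rt_lt_one]
  have h1 : ((1 - rt) + rt) ^ (K + 1) = ∑ j ∈ range (K + 1 + 1),
      (1 - rt) ^ j * rt ^ (K + 1 - j) * ((K + 1).choose j : ℝ) := add_pow _ _ _
  rw [Finset.sum_range_succ'] at h1
  have h2 : ((1 - rt) + rt) ^ (K + 1) = 1 := by
    have : (1 - rt) + rt = 1 := by ring
    rw [this, one_pow]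
  rw [h2] at h1
  simp only [pow_zero, Nat.sub_zero, one_mul, Nat.choose_zero_right, Nat.cast_one, mul_one] at h1
  have h3 : ∑ j ∈ range (K + 1), (K.choose j : ℝ) * ((1 - rt) ^ j * rt ^ (K - j) / (j + 1)) =
      (∑ j ∈ range (K + 1), (1 - rt) ^ (j + 1) * rt ^ (K + 1 - (j + 1)) *
        ((K + 1).choose (j + 1) : ℝ)) / ((K + 1) * (1 - rt)) := by
    rw [Finset.sum_div]
    apply Finset.sum_congr rfl
    intro j _
    have h4 : ((K : ℝ) + 1) * (K.choose j : ℝ) = ((K + 1).choose (j + 1) : ℝ) * (j + 1) := by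
      exact_mod_cast Nat.add_one_mul_choose_eq K j
    have h5 : K + 1 - (j + 1) = K - j := by omega
    rw [h5, pow_succ]
    have h6 : (0 : ℝ) < (j : ℝ) + 1 := by positivity
    have h7 : (0 : ℝ) < (K : ℝ) + 1 := by positivity
    field_simp
    linear_combination (rt ^ (K - j)) * h4
  rw [h3]
  unfold wK
  congr 1
  linarith

theorem sum_inv_trace {s : Finset (Finset (Fin N))} (hs : s.Nonempty) {τ : ℝ} (hτ : 0 ≤ τ)
    {D : Finset (Fin N)} (h : ∀ D' ⊆ D, |q id s D' - rt ^ #D'| ≤ τ) :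
    ∑ G ∈ s, 1 / ((#(G ∩ D) : ℝ) + 1) ≤ #s * (wK (#D) + 4 ^ #D * τ) := by
  classical
  have hs0 : (0 : ℝ) < #s := by exact_mod_cast hs.card_pos
  have h1 : ∀ G ∈ s, G ∩ D ∈ D.powerset := fun G _ =>
    Finset.mem_powerset.2 Finset.inter_subset_right
  rw [← Finset.sum_fiberwise_of_maps_to h1]
  have h2 : ∀ T ∈ D.powerset, ∑ G ∈ s with G ∩ D = T, 1 / ((#(G ∩ D) : ℝ) + 1) ≤
      #s * ((1 - rt) ^ #T * rt ^ (#D - #T) / (#T + 1) + 2 ^ #D * τ) := by
    intro T hT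
    rw [Finset.mem_powerset] at hT
    have h3 : ∑ G ∈ s with G ∩ D = T, 1 / ((#(G ∩ D) : ℝ) + 1) =
        (#{G ∈ s | G ∩ D = T} : ℝ) * (1 / ((#T : ℝ) + 1)) := by
      rw [← nsmul_eq_mul, ← Finset.sum_const]
      apply Finset.sum_congr rfl
      intro G hG
      rw [(Finset.mem_filter.1 hG).2]
    have h4 := (abs_le.1 (trace_prop hs h hT)).2
    have h5 : (#{G ∈ s | G ∩ D = T} : ℝ) / #s ≤
        (1 - rt) ^ #T * rt ^ (#D - #T) + 2 ^ #T * τ := by linarith
    rw [div_le_iff₀ hs0] at h5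
    have h6 : (2 : ℝ) ^ #T ≤ 2 ^ #D := pow_le_pow_right₀ (by norm_num) (Finset.card_le_card hT)
    have h7 : (0 : ℝ) < (#T : ℝ) + 1 := by positivity
    rw [h3]
    calc (#{G ∈ s | G ∩ D = T} : ℝ) * (1 / ((#T : ℝ) + 1)) ≤
          (((1 - rt) ^ #T * rt ^ (#D - #T) + 2 ^ #T * τ) * #s) * (1 / ((#T : ℝ) + 1)) := by gcongr
      _ = #s * ((1 - rt) ^ #T * rt ^ (#D - #T) / (#T + 1) + 2 ^ #T * τ * (1 / ((#T : ℝ) + 1))) := by
          field_simp
      _ ≤ #s * ((1 - rt) ^ #T * rt ^ (#D - #T) / (#T + 1) + 2 ^ #D * τ) := by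
          have h8 : 1 / ((#T : ℝ) + 1) ≤ 1 := by
            rw [div_le_one h7]
            have : (0 : ℝ) ≤ #T := Nat.cast_nonneg _
            linarith
          have h9 : 2 ^ #T * τ * (1 / ((#T : ℝ) + 1)) ≤ 2 ^ #D * τ := by
            calc 2 ^ #T * τ * (1 / ((#T : ℝ) + 1)) ≤ 2 ^ #D * τ * 1 := by gcongr
              _ = _ := mul_one _
          gcongr
  refine (Finset.sum_le_sum h2).trans ?_
  rw [← Finset.mul_sum, Finset.sum_add_distrib, Finset.sum_const, Finset.card_powerset,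
    nsmul_eq_mul]
  have h10 : ∑ T ∈ D.powerset, (1 - rt) ^ #T * rt ^ (#D - #T) / ((#T : ℝ) + 1) = wK (#D) := by
    rw [← binom_avg, Finset.sum_powerset_apply_card
      (fun j => (1 - rt) ^ j * rt ^ (#D - j) / ((j : ℝ) + 1))]
    apply Finset.sum_congr rfl
    intro j _
    rw [nsmul_eq_mul]
  rw [h10]
  push_cast
  have h11 : (4 : ℝ) ^ #D = 2 ^ #D * 2 ^ #D := by rw [← mul_pow]; norm_num
  rw [h11, mul_assoc]

/-- Sets represented by two distinct members of `𝓡`. -/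
theorem two_mul_card_le {𝓕 𝓡 : Finset (Finset (Fin N))} (f g : Finset (Fin N) → Finset (Fin N))
    (hf : ∀ S, f S ∈ 𝓕) (hg : ∀ S, g S ∈ 𝓕) (hfg : ∀ S, f S ∪ g S = S) :
    2 * #{S | f S ≠ g S ∧ f S ∈ 𝓡 ∧ g S ∈ 𝓡} ≤ ∑ G ∈ 𝓡, #(𝓕.image (fun F => F ∪ G)) := by
  classical
  set A : Finset (Finset (Fin N)) := {S | f S ≠ g S ∧ f S ∈ 𝓡 ∧ g S ∈ 𝓡} with hA
  have h1 : ∀ G ∈ 𝓡, #{S ∈ A | f S = G} + #{S ∈ A | g S = G} ≤ #(𝓕.image (fun F => F ∪ G)) := by
    intro G _
    rw [← Finset.card_union_of_disjoint]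
    · apply Finset.card_le_card
      intro S hS
      rw [Finset.mem_image]
      rcases Finset.mem_union.1 hS with h | h
      · have h := (Finset.mem_filter.1 h).2
        exact ⟨g S, hg S, by rw [← h, Finset.union_comm]; exact hfg S⟩
      · have h := (Finset.mem_filter.1 h).2
        exact ⟨f S, hf S, by rw [← h]; exact hfg S⟩
    · rw [Finset.disjoint_left]
      intro S h2 h3
      have e1 : S ∈ A := (Finset.mem_filter.1 h2).1
      have e2 : f S = G := (Finset.mem_filter.1 h2).2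
      have e3 : g S = G := (Finset.mem_filter.1 h3).2
      rw [hA] at e1
      have e4 : f S ≠ g S := (Finset.mem_filter.1 e1).2.1
      exact e4 (e2.trans e3.symm)
  have h2 : ∑ G ∈ 𝓡, #{S ∈ A | f S = G} = #A := by
    rw [← Finset.card_eq_sum_card_fiberwise]
    intro S hS
    rw [Finset.mem_coe, hA, Finset.mem_filter] at hS
    exact hS.2.2.1
  have h3 : ∑ G ∈ 𝓡, #{S ∈ A | g S = G} = #A := by
    rw [← Finset.card_eq_sum_card_fiberwise]
    intro S hS
    rw [Finset.mem_coe, hA, Finset.mem_filter] at hS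
    exact hS.2.2.2
  have h4 := Finset.sum_le_sum h1
  rw [Finset.sum_add_distrib, h2, h3] at h4
  omega

end Run7.h576
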