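import Pool.Agent.Run7.h354.BE.Stm2

/-!
# SAT: the modules of functions are saturated
-/

set_option autoImplicit false
set_option linter.unusedSectionVars false
set_option linter.unusedVariables false

open CategoryTheory CategoryTheory.Limits Complex ZeroObject
open Run7.h354.BE

namespace Run7.h576.BE

variable {τ τ' : ℂ} {s : Bool}

/-- The function of an element of `fm X b`. -/
def val (X : FM τ τ') (b : Gam2) (c : Ob τ τ' false) (y : (fm X b).obj.obj c) : X.T → ℂ :=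
  (show X.U (c.deg - b) from y).1

theorem val_inj {X : FM τ τ'} {b : Gam2} {c : Ob τ τ' false} {y y' : (fm X b).obj.obj c}
    (h : val X b c y = val X b c y') : y = y' := Subtype.ext h

theorem te_fm (X : FM τ τ') (b : Gam2) (c : Ob τ τ' false) (y : (fm X b).obj.obj c)
    (h : TE (fm X b).obj y) : y = 0 := by
  refine val_inj ?_
  funext t
  show val X b c y t = 0
  obtain ⟨γ, δ, g, k, hg, hk, h1, h2, h3⟩ := h (X.j t).1 (X.j t).2
  have e : pr g k (X.j t) * val X b c y t = 0 := congrFun (congrArg (val X b _) h3) t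
  exact (mul_eq_zero.1 e).resolve_left (mul_ne_zero h1 h2)

theorem iso_ker {M N : GM τ τ' s} {f : M ⟶ N} (hf : (tors τ τ' s).isoModSerre f)
    {a : Ob τ τ' s} (x : M.obj.obj a) (hx : f.hom.app a x = 0) : TE M.obj x := by
  have h1 : tors τ τ' s (kernel f) := hf.1
  rw [tors_iff] at h1
  have h2 : (ShortComplex.mk (kernel.ι f) f (kernel.condition f)).Exact :=
    ShortComplex.exact_of_f_is_kernel _ (kernelIsKernel f)
  rw [gm_exact_iff] at h2
  obtain ⟨y, hy⟩ := h2 a x hx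
  have h3 := (h1 a y).map (kernel.ι f).hom
  have hy' : (kernel.ι f).hom.app a y = x := hy
  rw [hy'] at h3
  exact h3

theorem iso_coker {M N : GM τ τ' s} {f : M ⟶ N} (hf : (tors τ τ' s).isoModSerre f)
    {a : Ob τ τ' s} (x : N.obj.obj a) (z w : ℂ) :
    ∃ (γ δ : Gam) (g h : ℂ → ℂ) (hg : g ∈ V τ γ) (hh : h ∈ V τ' δ), g z ≠ 0 ∧ h w ≠ 0 ∧
      ∃ y : M.obj.obj ⟨a.deg + (γ, δ)⟩, f.hom.app _ y = N.obj.map (mulP a hg hh) x := by
  have h1 : tors τ τ' s (cokernel f) := hf.2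
  rw [tors_iff] at h1
  have h2 : (ShortComplex.mk f (cokernel.π f) (cokernel.condition f)).Exact :=
    ShortComplex.exact_of_g_is_cokernel _ (cokernelIsCokernel f)
  rw [gm_exact_iff] at h2
  obtain ⟨γ, δ, g, h, hg, hh, e1, e2, e3⟩ := h1 a ((cokernel.π f).hom.app a x) z w
  refine ⟨γ, δ, g, h, hg, hh, e1, e2, h2 _ _ ?_⟩
  show (cokernel.π f).hom.app _ (N.obj.map (mulP a hg hh) x) = 0
  rw [nat_apply]
  exact e3

section

variable (X : FM τ τ') (a b : Gam2)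

theorem sat2 (ψ : X.T → ℂ) (hψ : ψ ∈ X.U (a - b)) (h : (sh τ τ' false).map (fmg X ψ hψ) = 0) :
    ψ = 0 := by
  rw [sh_map_eq_zero] at h
  have h1 : (1 : ℂ × ℂ → ℂ) ∈ W τ τ' (a - a) := by rw [sub_self]; exact W_one
  let e : (fm (fW τ τ') a).obj.obj ⟨a⟩ := (⟨1, h1⟩ : W τ τ' (a - a))
  have h2 := te_fm X b _ _ (h ⟨a⟩ e)
  have h3 := congrArg (val X b ⟨a⟩) h2
  funext t
  have h4 : (1 : ℂ) * ψ t = 0 := congrFun h3 t
  rwa [one_mul] at h4

theorem sat_eq {M : GM τ τ' false} (σ : M ⟶ fm (fW τ τ') a) (hσ : (tors τ τ' false).isoModSerre σ)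
    (f : M ⟶ fm X b) {c : Ob τ τ' false} (x y : M.obj.obj c)
    (h : σ.hom.app c x = σ.hom.app c y) : f.hom.app c x = f.hom.app c y := by
  have h1 : σ.hom.app c (x - y) = 0 := by rw [map_sub, h, sub_self]
  have h2 := te_fm X b _ _ ((iso_ker hσ _ h1).map f.hom)
  rw [map_sub, sub_eq_zero] at h2
  exact h2

/-- the basic relation -/
theorem sat_rel {M : GM τ τ' false} (σ : M ⟶ fm (fW τ τ') a)
    (hσ : (tors τ τ' false).isoModSerre σ) (f : M ⟶ fm X b) {c : Ob τ τ' false}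
    (x : M.obj.obj c) {γ δ : Gam} {g k : ℂ → ℂ} (hg : g ∈ V τ γ) (hk : k ∈ V τ' δ)
    (m : M.obj.obj ⟨a + (γ, δ)⟩)
    (hm : val (fW τ τ') a _ (σ.hom.app _ m) = pr g k) (t : X.T) :
    pr g k (X.j t) * val X b c (f.hom.app c x) t =
      val (fW τ τ') a c (σ.hom.app c x) (X.j t) * val X b _ (f.hom.app _ m) t := by
  have hq : val (fW τ τ') a c (σ.hom.app c x) ∈ W τ τ' (c.deg - a) :=
    (show (fW τ τ').U (c.deg - a) from σ.hom.app c x).2
  have hq' : val (fW τ τ') a c (σ.hom.app c x) ∈ W τ τ' ((c.deg + (γ, δ)) - (a + (γ, δ))) := by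
    rw [add_sub_add_right_eq_sub]
    exact hq
  have h1 : σ.hom.app _ (M.obj.map (mulP c hg hk) x) =
      σ.hom.app _ (M.obj.map (mul (a := (⟨a + (γ, δ)⟩ : Ob τ τ' false))
        (b := ⟨c.deg + (γ, δ)⟩) _ hq') m) := by
    rw [nat_apply, nat_apply]
    refine val_inj ?_
    funext p
    show pr g k p * val (fW τ τ') a c (σ.hom.app c x) p =
      val (fW τ τ') a c (σ.hom.app c x) p * val (fW τ τ') a _ (σ.hom.app _ m) p
    rw [hm, mul_comm]
  have h2 := sat_eq X a b σ hσ f _ _ h1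
  rw [nat_apply, nat_apply] at h2
  exact congrFun (congrArg (val X b _) h2) t

theorem sat1 (φ : (sh τ τ' false).obj (fm (fW τ τ') a) ⟶ (sh τ τ' false).obj (fm X b)) :
    ∃ (ψ : X.T → ℂ) (hψ : ψ ∈ X.U (a - b)), φ = (sh τ τ' false).map (fmg X ψ hψ) := by
  obtain ⟨@⟨M, σ, hσ, f⟩, hφ⟩ := Localization.exists_rightFraction (sh τ τ' false)
    (tors τ τ' false).isoModSerre φ
  have hφ' : (sh τ τ' false).map σ ≫ φ = (sh τ τ' false).map f := by
    rw [hφ]
    exact MorphismProperty.RightFraction.map_s_comp_map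
      (MorphismProperty.RightFraction.mk σ hσ f) _ _
  have h1 : (1 : ℂ × ℂ → ℂ) ∈ W τ τ' (a - a) := by rw [sub_self]; exact W_one
  let e : (fm (fW τ τ') a).obj.obj ⟨a⟩ := (⟨1, h1⟩ : W τ τ' (a - a))
  have key : ∀ p : ℂ × ℂ, ∃ (γ δ : Gam) (g k : ℂ → ℂ) (hg : g ∈ V τ γ) (hk : k ∈ V τ' δ),
      g p.1 ≠ 0 ∧ k p.2 ≠ 0 ∧ ∃ m : M.obj.obj ⟨a + (γ, δ)⟩,
        val (fW τ τ') a _ (σ.hom.app _ m) = pr g k := by
    intro p
    obtain ⟨γ, δ, g, k, hg, hk, h1, h2, y, hy⟩ := iso_coker hσ (a := ⟨a⟩) e p.1 p.2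
    refine ⟨γ, δ, g, k, hg, hk, h1, h2, y, ?_⟩
    rw [hy]
    funext q
    show pr g k q * 1 = _
    rw [mul_one]
  choose γ δ g k hg hk h1 h2 m hm using key
  have hne : ∀ p, pr (g p) (k p) p ≠ 0 := fun p => mul_ne_zero (h1 p) (h2 p)
  obtain ⟨ψ, hψ0⟩ : ∃ ψ : X.T → ℂ, ψ = fun t =>
      val X b _ (f.hom.app _ (m (X.j t))) t / pr (g (X.j t)) (k (X.j t)) (X.j t) := ⟨_, rfl⟩
  have r1 : ∀ (c : Ob τ τ' false) (x : M.obj.obj c) (t : X.T), val X b c (f.hom.app c x) t =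
      val (fW τ τ') a c (σ.hom.app c x) (X.j t) * ψ t := by
    intro c x t
    have := sat_rel X a b σ hσ f x (hg (X.j t)) (hk (X.j t)) (m (X.j t)) (hm _) t
    rw [hψ0, ← mul_div_assoc, eq_div_iff (hne _), mul_comm]
    exact this
  have hψ : ψ ∈ X.U (a - b) := by
    refine X.loc _ _ fun t => ⟨γ (X.j t), δ (X.j t), g (X.j t), k (X.j t), hg _, hk _, h1 _,
      h2 _, ?_⟩
    have e1 : (fun t' => pr (g (X.j t)) (k (X.j t)) (X.j t')) * ψ =
        val X b _ (f.hom.app _ (m (X.j t))) := by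
      funext t'
      rw [r1, hm]
      rfl
    rw [e1]
    have e2 := (show X.U ((a + (γ (X.j t), δ (X.j t))) - b) from f.hom.app _ (m (X.j t))).2
    rwa [show a - b + (γ (X.j t), δ (X.j t)) = a + (γ (X.j t), δ (X.j t)) - b by abel]
  refine ⟨ψ, hψ, ?_⟩
  have hi : IsIso ((sh τ τ' false).map σ) := Localization.inverts (sh τ τ' false) _ _ hσ
  rw [← cancel_epi ((sh τ τ' false).map σ), hφ', ← Functor.map_comp, ← sub_eq_zero,
    ← Functor.map_sub, sh_map_eq_zero]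
  intro c x
  have e3 : (f - σ ≫ fmg X ψ hψ).hom.app c x = 0 := by
    show f.hom.app c x - (fmg X ψ hψ).hom.app c (σ.hom.app c x) = 0
    rw [sub_eq_zero]
    refine val_inj ?_
    funext t
    rw [r1]
    rfl
  rw [e3]
  intro z w
  exact ⟨0, 0, 1, 1, V_one, V_one, one_ne_zero, one_ne_zero, map_zero _⟩

end

theorem p_sat : S_SAT := fun _ _ X a b => ⟨sat1 X a b, sat2 X a b⟩

end Run7.h576.BE
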