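import Pool.Agent.Run7.h354.BE.Stm4

/-!
# SKY and ACT: skyscraper sheaves
-/

set_option autoImplicit false
set_option linter.unusedSectionVars false
set_option linter.unusedVariables false

open CategoryTheory CategoryTheory.Limits Pretriangulated Triangulated Complex ZeroObject
open Run7.h354.BE

namespace Run7.h576.BE

universe w w'

variable {τ₀ τ τ' : ℂ} {s : Bool}

theorem mulr {c d : ℂ} (h : c = d) (r : ℂ) : c * r = d * r := by rw [h]

/-- The swap of the two components. -/
noncomputable def swp (x : ℂ × ℂ) : ptS τ τ' x ⟶ ptS τ τ' (inv true x) :=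
  (lin τ τ' true).homMk
  { app := fun a => ModuleCat.ofHom
      ((LinearMap.snd ℂ ℂ ℂ).prod (LinearMap.fst ℂ ℂ ℂ))
    naturality := by
      intro a b φ
      obtain ⟨e, he, f, hf⟩ := φ
      have hx : f x = f (inv true (inv true x)) := by
        rw [W_inv_inv hf]; rfl
      cases e
      · exact ModuleCat.hom_ext (LinearMap.ext fun y => Prod.ext rfl (mulr hx y.1))
      · exact ModuleCat.hom_ext (LinearMap.ext fun y => Prod.ext rfl (mulr hx y.2)) }

/-- The swap in the other direction. -/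
noncomputable def swp' (x : ℂ × ℂ) : ptS τ τ' (inv true x) ⟶ ptS τ τ' x :=
  (lin τ τ' true).homMk
  { app := fun a => ModuleCat.ofHom
      ((LinearMap.snd ℂ ℂ ℂ).prod (LinearMap.fst ℂ ℂ ℂ))
    naturality := by
      intro a b φ
      obtain ⟨e, he, f, hf⟩ := φ
      have hx : f (inv true (inv true x)) = f x := by
        rw [W_inv_inv hf]; rfl
      cases e
      · exact ModuleCat.hom_ext (LinearMap.ext fun y => Prod.ext (mulr hx y.2) rfl)
      · exact ModuleCat.hom_ext (LinearMap.ext fun y => Prod.ext (mulr hx y.1) rfl) }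

/-- The skyscraper sheaves at `x` and `inv x` have the same image. -/
noncomputable def swpIso (x : ℂ × ℂ) : ptS τ τ' x ≅ ptS τ τ' (inv true x) where
  hom := swp x
  inv := swp' x
  hom_inv_id := rfl
  inv_hom_id := rfl

theorem p_sky : S_SKY.{w, w'} := by
  intro τ τ' _ _ x
  refine ⟨⟨?_⟩, ⟨?_⟩⟩
  · exact ((pf τ τ').mapDerivedCategorySingleFunctor 0).app _ ≪≫
      (DerivedCategory.singleFunctor _ 0).mapIso
        ((Localization.fac (dir τ τ' ⋙ sh τ τ' true) inverts_dir (sh τ τ' false)).app (pt τ τ' x))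
  · exact (DerivedCategory.singleFunctor _ 0).mapIso ((sh τ τ' true).mapIso (swpIso x))

/-- The twist of a skyscraper module. -/
noncomputable def twpt (D : Dat τ₀ τ τ' false) (γ : Gam) (x : ℂ × ℂ) :
    (D.tw γ).obj (pt τ τ' x) ≅ pt τ τ' x where
  hom := (lin τ τ' false).homMk { app := fun c => 𝟙 _, naturality := fun c d φ => rfl }
  inv := (lin τ τ' false).homMk { app := fun c => 𝟙 _, naturality := fun c d φ => rfl }
  hom_inv_id := rfl
  inv_hom_id := rfl

theorem act1 (D : Dat τ₀ τ τ' false) (γ : Gam) (x : ℂ × ℂ)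
    [HasDerivedCategory.{w} (QC τ τ' false)] :
    Nonempty ((D.twQ γ).mapDerivedCategory.obj (skyX τ τ' x) ≅ skyX τ τ' x) :=
  ⟨((D.twQ γ).mapDerivedCategorySingleFunctor 0).app _ ≪≫
      (DerivedCategory.singleFunctor _ 0).mapIso
        ((Localization.fac (D.tw γ ⋙ sh τ τ' false) (D.inverts_tw γ) (sh τ τ' false)).app _ ≪≫
          (sh τ τ' false).mapIso (twpt D γ x))⟩

theorem act2 (D : Dat τ₀ τ τ' false) (γ : Gam) (f : ℂ → ℂ) (hf : f ∈ V τ₀ (γ - 0))
    (x : ℂ × ℂ) (hx : f (D.ℓ x) = 0) :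
    (D.qc.Φ.map (gm f hf)).app ((sh τ τ' false).obj (pt τ τ' x)) = 0 := by
  rw [D.qc_eq_zero]
  have e : (D.twm (gm f hf)).app (pt τ τ' x) = 0 := by
    refine ObjectProperty.hom_ext _ ?_
    ext a
    show f (D.ℓ x) * (1 : ℂ) = 0
    rw [hx, zero_mul]
  rw [e, Functor.map_zero]

theorem act3 {A : Type*} [Category* A] [Abelian A] [HasDerivedCategory.{w} A] {τ : ℂ}
    (T : TA τ A) [∀ a, (T.Φ.obj a).Additive]
    [∀ a, PreservesFiniteLimits (T.Φ.obj a)] [∀ a, PreservesFiniteColimits (T.Φ.obj a)]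
    {a b : Gr τ} (f : a ⟶ b) (X : A) (h : (T.Φ.map f).app X = 0) (n : ℤ) :
    (T.der.Φ.map f).app ((DerivedCategory.singleFunctor A n).obj X) = 0 := by
  have key : ∀ Y : A, (X ≅ Y) → (T.Φ.map f).app Y = 0 := by
    intro Y iso
    rw [← cancel_epi ((T.Φ.obj a).map iso.hom), (T.Φ.map f).naturality, h, zero_comp,
        comp_zero]
  have e := T.der_map_app f ((CochainComplex.singleFunctor A n).obj X)
  have h0 : (T.cx.Φ.map f).app ((CochainComplex.singleFunctor A n).obj X) = 0 := by
    refine HomologicalComplex.hom_ext _ _ fun i => ?_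
    by_cases hi : i = n
    · subst hi
      exact key _ (HomologicalComplex.singleObjXSelf (ComplexShape.up ℤ) i X).symm
    · have hz : IsZero (((CochainComplex.singleFunctor A n).obj X).X i) :=
        HomologicalComplex.isZero_single_obj_X (ComplexShape.up ℤ) n X i hi
      exact ((T.Φ.obj a).map_isZero hz).eq_of_src _ _
  have e2 : DerivedCategory.Q.map ((T.cx.Φ.map f).app
      ((CochainComplex.singleFunctor A n).obj X)) = 0 := by
    rw [h0]
    exact Functor.map_zero _ _ _
  have e3 := e.trans ((congrArg (fun t => (T.Φ.obj a).mapDerivedCategoryFactors.hom.app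
    ((CochainComplex.singleFunctor A n).obj X) ≫ t) e2).trans comp_zero)
  have : Mono ((T.Φ.obj b).mapDerivedCategoryFactors.hom.app
    ((CochainComplex.singleFunctor A n).obj X)) := inferInstance
  exact (cancel_mono ((T.Φ.obj b).mapDerivedCategoryFactors.hom.app
    ((CochainComplex.singleFunctor A n).obj X))).1 (e3.trans zero_comp.symm)

theorem p_act : S_ACT.{w} := by
  intro τ τ' _ x
  refine ⟨fun γ => act1 _ γ x, fun γ => act1 _ γ x, fun γ f hf h => ?_, fun γ f hf h => ?_⟩
  · exact act3 _ _ _ (act2 (DE τ τ') γ f hf x h) 0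
  · exact act3 _ _ _ (act2 (DF τ τ') γ f hf x h) 0

end Run7.h576.BE
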