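import Pool.Agent.Run7.h418.E.Ug

/-!
# D1b: an algebraically closed field of finite transcendence degree over `ℂ` is `ℂ`
-/

set_option autoImplicit false

open scoped Cardinal

namespace Run7.h576.EU

open Run7.h418

theorem d1b : Run7.h418.E.D1b := by
  intro Ω _ _ 𝔎 hK hN A hA
  classical
  obtain ⟨N, hN⟩ := hN
  set k := Subfield.closure A with hk
  have hkc : #k ≤ ℵ₀ :=
    (Subfield.cardinalMk_closure_le_max A).trans (max_le hA.le_aleph0 le_rfl)
  have hC : #ℂ = 𝔠 := Cardinal.mk_complex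
  have hcard : #𝔎 = 𝔠 := by
    apply le_antisymm
    · obtain ⟨s, hs⟩ := exists_isTranscendenceBasis ℂ 𝔎
      have hsN : #s < ℵ₀ := by
        rw [hs.cardinalMk_eq_trdeg, hN]
        exact Cardinal.natCast_lt_aleph0
      have halg := hs.isAlgebraic
      refine (Algebra.IsAlgebraic.cardinalMk_le_max
        (Algebra.adjoin ℂ (Set.range ((↑) : s → 𝔎))) 𝔎).trans
        (max_le ?_ Cardinal.aleph0_le_continuum)
      rw [← Cardinal.mk_congr hs.1.aevalEquiv.toEquiv]
      refine MvPolynomial.cardinalMk_le_max.trans ?_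
      refine max_le (max_le hC.le ?_) Cardinal.aleph0_le_continuum
      exact hsN.le.trans Cardinal.aleph0_le_continuum
    · rw [← hC]
      exact Cardinal.mk_le_of_injective (algebraMap ℂ 𝔎).injective
  obtain ⟨ψ, hψ⟩ := U.exists_iso (k := k) (L := 𝔎) (M := ℂ) hkc (by
    rw [hcard]
    exact Cardinal.aleph0_lt_continuum) (by rw [hcard, hC])
  refine ⟨ψ, fun c hc => ?_, ?_⟩
  · have h1 := hψ ⟨c, Subfield.subset_closure hc⟩
    rw [IsScalarTower.algebraMap_apply k ℂ 𝔎] at h1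
    exact h1
  · letI : Algebra ℂ U.BC := RingHom.toAlgebra (S := U.BC)
      ((ψ : 𝔎 →+* ℂ).comp (algebraMap ℂ 𝔎))
    have e : 𝔎 ≃ₐ[ℂ] U.BC := AlgEquiv.ofRingEquiv (f := (ψ : 𝔎 ≃+* U.BC)) fun c => rfl
    refine ⟨N, ?_⟩
    rw [← e.trdeg_eq]
    exact hN

end Run7.h576.EU
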