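import Pool.Agent.Run7.h354.BE.Stm4

/-!
# K0: `Kos0` for the actions on quasi-coherent sheaves
-/

set_option autoImplicit false
set_option linter.unusedSectionVars false
set_option linter.unusedVariables false

open CategoryTheory CategoryTheory.Limits Complex ZeroObject
open Run7.h354.BE

namespace Run7.h576.BE

variable {τ₀ τ τ' : ℂ} {s : Bool}

/-- The `TE` condition at one point, with `f` not zero at the image of the point. -/
theorem te_point (D : Dat τ₀ τ τ' s) (N : GM τ τ' s) {a : Ob τ τ' s} (x : N.obj.obj a) (γ : Gam)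
    (f : ℂ → ℂ) (hf : f ∈ V τ₀ (γ - 0))
    (h : (D.qc.Φ.map (gm f hf)).app ((sh τ τ' s).obj N) = 0) (z w : ℂ) (hz : f (D.ℓ (z, w)) ≠ 0) :
    ∃ (γ δ : Gam) (g h : ℂ → ℂ) (hg : g ∈ V τ γ) (hh : h ∈ V τ' δ), g z ≠ 0 ∧ h w ≠ 0 ∧
      N.obj.map (mulP a hg hh) x = 0 := by
  rw [D.qc_eq_zero, sh_map_eq_zero] at h
  have hone : a.deg = ((D.t 0).obj a).deg := by
    show a.deg = a.deg + D.δ 0
    rw [map_zero, add_zero]
  have h1 := (D.te_tw γ N (a := a) _).1 (h a (N.obj.map (Dat.one hone) x))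
  obtain ⟨γ', δ', g', h', hg', hh', hgz, hhw, e0⟩ := h1 z w
  obtain ⟨g, k, hg, hk, e⟩ := D.fac (γ - 0) f hf
  have e1 : g z * k w = f (D.ℓ (z, w)) := (congrFun e (z, w)).symm
  have hgz' : g z ≠ 0 := fun h0 => hz (by rw [← e1, h0, zero_mul])
  have hkw' : k w ≠ 0 := fun h0 => hz (by rw [← e1, h0, mul_zero])
  refine ⟨(D.δ (γ - 0)).1 + γ', (D.δ (γ - 0)).2 + δ', g * g', k * h', V_mul hg hg',
    V_mul hk hh', mul_ne_zero hgz' hgz, mul_ne_zero hkw' hhw, ?_⟩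
  have m1 : pr g k ∈ W τ τ' (((D.t γ).obj a).deg - a.deg) := by
    show _ ∈ W τ τ' (a.deg + D.δ γ - a.deg)
    rw [add_sub_cancel_left]
    have := W_pr hg hk
    rwa [sub_zero] at this
  have m2 : pr g' h' ∈ W τ τ' ((((D.t γ).obj a).deg + (γ', δ')) - ((D.t γ).obj a).deg) := by
    rw [add_sub_cancel_left]
    exact W_pr hg' hh'
  have m3 : pr g' h' ∈ W τ τ' ((a.deg + ((D.δ (γ - 0)).1 + γ', (D.δ (γ - 0)).2 + δ')) -
      ((D.t γ).obj a).deg) := by
    have e2 : a.deg + ((D.δ (γ - 0)).1 + γ', (D.δ (γ - 0)).2 + δ') - ((D.t γ).obj a).deg =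
        (γ', δ') := by
      show a.deg + ((D.δ (γ - 0)) + (γ', δ')) - (a.deg + D.δ γ) = _
      rw [sub_zero]
      abel
    rw [e2]
    exact W_pr hg' hh'
  have e3 : N.obj.map (mulP ((D.t γ).obj a) hg' hh')
      (N.obj.map (mul (a := a) (b := (D.t γ).obj a) (pr g k) m1) x) = 0 := by
    rw [← e0]
    congr 1
    show _ = N.obj.map (D.m f hf a) (N.obj.map (Dat.one hone) x)
    have h0 : (1 : ℂ × ℂ → ℂ) ∈ W τ τ' (((D.t 0).obj a).deg - a.deg) := by
      rw [← hone, sub_self]; exact W_one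
    refine mul_apply N.obj h0 _ _ ?_ x
    show pr g k = (f ∘ D.ℓ) * 1
    rw [mul_one, e]
  refine (mul_apply N.obj (b := (D.t γ).obj a) m1 m3 _ ?_ x).trans ?_
  · funext p
    show g p.1 * g' p.1 * (k p.2 * h' p.2) = g' p.1 * h' p.2 * (g p.1 * k p.2)
    ring
  · have h0 : (1 : ℂ × ℂ → ℂ) ∈ W τ τ'
        ((a.deg + ((D.δ (γ - 0)).1 + γ', (D.δ (γ - 0)).2 + δ')) -
        (((D.t γ).obj a).deg + (γ', δ'))) := by
      have e2 : a.deg + ((D.δ (γ - 0)).1 + γ', (D.δ (γ - 0)).2 + δ') -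
          (((D.t γ).obj a).deg + (γ', δ')) = 0 := by
        show a.deg + ((D.δ (γ - 0)) + (γ', δ')) - (a.deg + D.δ γ + (γ', δ')) = _
        rw [sub_zero]
        abel
      rw [e2]
      exact W_one
    refine (mul_apply N.obj (b := (⟨((D.t γ).obj a).deg + (γ', δ')⟩ : Ob τ τ' s)) m2 h0 m3
      (one_mul _).symm _).trans ?_
    have e4 : N.obj.map (mul (a := (D.t γ).obj a)
        (b := (⟨((D.t γ).obj a).deg + (γ', δ')⟩ : Ob τ τ' s)) (pr g' h') m2)
      (N.obj.map (mul (a := a) (b := (D.t γ).obj a) (pr g k) m1) x) = 0 := e3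
    rw [e4, map_zero]

theorem p_k0 : S_K0 := by
  intro τ₀ τ τ' s D M a b f g hf hg hfg h1 h2
  have hes := Localization.essSurj (sh τ τ' s) (tors τ τ' s).isoModSerre
  obtain ⟨N, ⟨e⟩⟩ : ∃ N, Nonempty ((sh τ τ' s).obj N ≅ M) := hes.mem_essImage M
  have key : ∀ (a : Gam) (f : ℂ → ℂ) (hf : f ∈ V τ₀ (a - 0)),
      (D.qc.Φ.map (gm f hf)).app M = 0 →
      (D.qc.Φ.map (gm f hf)).app ((sh τ τ' s).obj N) = 0 := by
    intro a f hf h
    rw [← cancel_mono ((D.qc.Φ.obj ⟨a⟩).map e.hom), ← (D.qc.Φ.map (gm f hf)).naturality, h,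
      comp_zero, zero_comp]
  have k1 := key a f hf h1
  have k2 := key b g hg h2
  refine IsZero.of_iso ?_ e.symm
  rw [isZero_sh, tors_iff]
  intro c x z w
  rcases hfg (D.ℓ (z, w)) with h | h
  · exact te_point D N x a f hf k1 z w h
  · exact te_point D N x b g hg k2 z w h

end Run7.h576.BE
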